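import Mathlib

/-! The class number does not change under isomorphisms; quadratic fields with the same square root. -/

set_option autoImplicit false

namespace Pool.Agent.Q267.CN

open NumberField Module

lemma classNumber_congr {K : Type*} [Field K] [NumberField K] {F : Type*} [Field F] [NumberField F]
    (e : K ≃+* F) : classNumber K = classNumber F :=
  Fintype.card_congr (ClassGroup.mulEquiv (RingOfIntegers.mapRingEquiv e)).toEquiv

lemma minpoly_sqrt {K : Type*} [Field K] [Algebra ℚ K] [Algebra.IsIntegral ℚ K] {m : ℕ} (hm : 0 < m)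
    {y : K} (hy : y ^ 2 = -(m : K)) : minpoly ℚ y = Polynomial.X ^ 2 + Polynomial.C (m : ℚ) := by
  symm
  apply minpoly.eq_of_irreducible_of_monic
  · refine Polynomial.irreducible_of_degree_le_three_of_not_isRoot ?_ ?_
    · have : (Polynomial.X ^ 2 + Polynomial.C (m : ℚ)).natDegree = 2 := by compute_degree!
      rw [this]; simp
    · intro q hq
      rw [Polynomial.IsRoot.def] at hq
      simp only [Polynomial.eval_add, Polynomial.eval_pow, Polynomial.eval_X, Polynomial.eval_C] at hq
      have h1 : (0 : ℚ) < m := by exact_mod_cast hm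
      nlinarith [sq_nonneg q]
  · simp [hy]
  · monicity!

/-- two quadratic fields with a square root of `-m` are isomorphic -/
lemma nonempty_equiv {K : Type*} [Field K] [NumberField K] (hK : finrank ℚ K = 2)
    {L : Type*} [Field L] [NumberField L] {m : ℕ} (hm : 0 < m) {y : K} (hy : y ^ 2 = -(m : K))
    {g : L} (hg : g ^ 2 = -(m : L)) : Nonempty (K ≃+* IntermediateField.adjoin ℚ {g}) := by
  have i1 : IsIntegral ℚ y := Algebra.IsIntegral.isIntegral _
  have i2 : IsIntegral ℚ g := Algebra.IsIntegral.isIntegral _
  have m1 := minpoly_sqrt hm hy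
  have m2 := minpoly_sqrt hm hg
  let pb1 := IntermediateField.adjoin.powerBasis i1
  let pb2 := IntermediateField.adjoin.powerBasis i2
  let e1 := pb1.equivOfMinpoly pb2
    ((IntermediateField.minpoly_gen ℚ y).trans ((m1.trans m2.symm).trans
      (IntermediateField.minpoly_gen ℚ g).symm))
  have htop : IntermediateField.adjoin ℚ {y} = ⊤ := by
    apply IntermediateField.finrank_eq_one_iff_eq_top.1
    have h3 : finrank ℚ (IntermediateField.adjoin ℚ {y}) = 2 := by
      rw [IntermediateField.adjoin.finrank i1, m1]
      compute_degree!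
    have h4 := finrank_mul_finrank ℚ (IntermediateField.adjoin ℚ {y}) K
    rw [hK, h3] at h4
    omega
  let e2 : IntermediateField.adjoin ℚ {y} ≃ₐ[ℚ] K :=
    (IntermediateField.equivOfEq htop).trans IntermediateField.topEquiv
  exact ⟨e2.symm.toRingEquiv.trans e1.toRingEquiv⟩

end Pool.Agent.Q267.CN
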