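import Mathlib
import Pool.Agent.H916R2.OddChar

/-! The value at `1` of the `L`-function of an odd primitive real character. -/

set_option autoImplicit false

namespace Pool.Agent.Q267.CN

open Complex Finset HurwitzZeta ZMod Pool.Agent.H916R2

section

variable {m : ℕ} [NeZero m] {ψ : DirichletCharacter ℂ m}

/-- `∑ j ψ(j)` over `0 ≤ j < m` -/
noncomputable def firstMoment (ψ : DirichletCharacter ℂ m) : ℂ := ∑ j : ZMod m, (j.val : ℂ) * ψ j

omit [NeZero m] in
lemma odd_ne_one (ho : ψ.Odd) : ψ ≠ 1 := by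
  intro h
  unfold DirichletCharacter.Odd at ho
  rw [h] at ho
  rw [MulChar.one_apply (by simp : IsUnit (-1 : ZMod m))] at ho
  norm_num at ho

lemma dft_prim (ho : ψ.Odd) (hp : ψ.IsPrimitive) (hr : ψ⁻¹ = ψ) (j : ZMod m) :
    ZMod.dft (fun j => ψ j) j = -(ψ j * gaussSum ψ stdAddChar) := by
  have h := hp.fourierTransform_eq_inv_mul_gaussSum j
  rw [h, hr, DirichletCharacter.Odd.eval_neg (ψ := ψ) j ho]
  ring

/-- the square of the Gauss sum -/
theorem gauss_sq (ho : ψ.Odd) (hp : ψ.IsPrimitive) (hr : ψ⁻¹ = ψ) :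
    gaussSum ψ stdAddChar ^ 2 = -(m : ℂ) := by
  have h1 := ZMod.dft_dft (fun j : ZMod m => ψ j)
  have h2 : ZMod.dft (fun j : ZMod m => ψ j) =
      fun j => (-(gaussSum ψ stdAddChar)) * ψ j := by
    funext j
    rw [dft_prim ho hp hr]
    ring
  rw [h2] at h1
  have h3 := congrFun h1 1
  rw [ZMod.dft_const_mul] at h3
  have e : ZMod.dft (⇑ψ) 1 = -(ψ 1 * gaussSum ψ stdAddChar) := dft_prim ho hp hr 1
  beta_reduce at h3
  rw [e, map_one, DirichletCharacter.Odd.eval_neg (ψ := ψ) 1 ho, map_one] at h3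
  simp only [smul_eq_mul] at h3
  linear_combination h3

theorem L_one (ho : ψ.Odd) (hp : ψ.IsPrimitive) (hr : ψ⁻¹ = ψ) :
    DirichletCharacter.LFunction ψ 1 =
      Real.pi * I * gaussSum ψ stdAddChar / (m : ℂ) ^ 2 * firstMoment ψ := by
  have hψ1 := odd_ne_one ho
  have hm : (m : ℂ) ≠ 0 := Nat.cast_ne_zero.mpr (NeZero.ne m)
  set F : ZMod m → ℂ := ZMod.dft (fun j => ψ j) with hF
  have hF0 : F 0 = 0 := by
    rw [hF, ZMod.dft_apply_zero]
    exact MulChar.sum_eq_zero_of_ne_one hψ1
  have hfun : Function.Odd (fun j : ZMod m => ψ j) := ho.to_fun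
  have hFodd : ∀ j, F (-j) = - F j := by
    have := ZMod.dft_odd_iff.mpr hfun
    exact this
  have hFF : ZMod.dft F = fun j => (m : ℂ) * (- ψ j) := by
    rw [hF, ZMod.dft_dft]
    funext j
    simp only [smul_eq_mul]
    rw [DirichletCharacter.Odd.eval_neg (ψ := ψ) j ho]
  have hLF := ZMod.LFunction_dft F (s := 1) (Or.inl hF0)
  rw [hFF] at hLF
  have hlhs : ZMod.LFunction (fun j => (m : ℂ) * (- ψ j)) 1 =
      - (m : ℂ) * DirichletCharacter.LFunction ψ 1 := by
    unfold DirichletCharacter.LFunction ZMod.LFunction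
    simp only [mul_sum]
    refine sum_congr rfl fun j _ => ?_
    ring
  have hrhs : ∑ j : ZMod m, F j * expZeta (toAddCircle (-j)) 1 =
      (-I) * ∑ j : ZMod m, F j * sinZeta (toAddCircle j) 1 := by
    have h1 : ∑ j : ZMod m, F j * expZeta (toAddCircle (-j)) 1 =
        ∑ j : ZMod m, (- F j) * expZeta (toAddCircle j) 1 := by
      rw [← Equiv.sum_comp (Equiv.neg (ZMod m))]
      refine sum_congr rfl fun j _ => ?_
      simp only [Equiv.neg_apply, neg_neg, hFodd]
    have h2 : 2 * ∑ j : ZMod m, F j * expZeta (toAddCircle (-j)) 1 =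
        2 * ((-I) * ∑ j : ZMod m, F j * sinZeta (toAddCircle j) 1) := by
      rw [two_mul]
      nth_rewrite 2 [h1]
      rw [← sum_add_distrib, mul_sum, mul_sum]
      refine sum_congr rfl fun j _ => ?_
      rw [sinZeta_eq, map_neg]
      have hI : (2 : ℂ) * I ≠ 0 := by simp
      field_simp
      ring
    exact mul_left_cancel₀ two_ne_zero h2
  have hS : ∑ j : ZMod m, F j * sinZeta (toAddCircle j) 1 =
      gaussSum ψ stdAddChar * Real.pi / m * firstMoment ψ := by
    have h0 : ∑ j : ZMod m, ψ j = 0 := MulChar.sum_eq_zero_of_ne_one hψ1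
    have h1 : ∀ j : ZMod m, F j * sinZeta (toAddCircle j) 1 =
        gaussSum ψ stdAddChar * Real.pi / m * ((j.val : ℂ) * ψ j) -
          gaussSum ψ stdAddChar * Real.pi / 2 * ψ j := by
      intro j
      rw [sinZeta_toAddCircle, hF, dft_prim ho hp hr]
      unfold saw
      by_cases hj : j = 0
      · subst hj
        have : ψ (0 : ZMod m) = 0 := by
          have h5 := ho.to_fun 0
          simp only [neg_zero] at h5
          have : 2 * ψ 0 = 0 := by linear_combination h5
          simpa using this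
        rw [this]; simp
      · rw [if_neg hj]
        push_cast
        field_simp
    rw [sum_congr rfl fun j _ => h1 j, sum_sub_distrib, ← mul_sum, ← mul_sum, h0, firstMoment]
    ring
  rw [hlhs, hrhs, hS] at hLF
  field_simp at hLF ⊢
  linear_combination -hLF

end

end Pool.Agent.Q267.CN
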