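import Mathlib

/-! Invariants of a quadratic field containing a square root of a negative number. -/

set_option autoImplicit false

namespace Pool.Agent.Q267.CN

open NumberField Module

section

variable {K : Type*} [Field K] [NumberField K]

/-- the trace of a quadratic irrationality in a quadratic field -/
lemma trace_quad (h2 : finrank ℚ K = 2) (α : K) (t n : ℚ)
    (hα : α ^ 2 - (t : K) * α + (n : K) = 0) (hirr : ∀ q : ℚ, q ^ 2 - t * q + n ≠ 0) :
    Algebra.trace ℚ K α = t := by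
  set f : Polynomial ℚ := Polynomial.X ^ 2 - Polynomial.C t * Polynomial.X + Polynomial.C n with hf
  have hdeg : f.natDegree = 2 := by rw [hf]; compute_degree!
  have hmon : f.Monic := by rw [hf]; monicity!
  have hir : Irreducible f := by
    refine Polynomial.irreducible_of_degree_le_three_of_not_isRoot (by rw [hdeg]; simp) ?_
    intro q hq
    apply hirr q
    have := hq
    rw [Polynomial.IsRoot.def, hf] at this
    simpa using this
  have hroot : Polynomial.aeval α f = 0 := by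
    rw [hf]
    simp only [map_add, map_sub, map_pow, Polynomial.aeval_X, map_mul, Polynomial.aeval_C]
    simpa using hα
  have hmin := minpoly.eq_of_irreducible_of_monic hir hroot hmon
  rw [trace_eq_finrank_mul_minpoly_nextCoeff, ← hmin]
  have hnc : f.nextCoeff = -t := by
    rw [Polynomial.nextCoeff_of_natDegree_pos (by rw [hdeg]; norm_num), hdeg, hf]
    simp [Polynomial.coeff_C]
  have hint : IsIntegral ℚ α := ⟨f, hmon, by rw [← Polynomial.aeval_def]; exact hroot⟩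
  have h3 : finrank ℚ (IntermediateField.adjoin ℚ {α}) = 2 := by
    rw [IntermediateField.adjoin.finrank hint, ← hmin, hdeg]
  have h4 := finrank_mul_finrank ℚ (IntermediateField.adjoin ℚ {α}) K
  rw [h2, h3] at h4
  have h5 : finrank (IntermediateField.adjoin ℚ {α}) K = 1 := by omega
  rw [h5, hnc]
  simp

/-- a `ℤ`-basis of the ring of integers indexed by `Fin 2` -/
noncomputable def bas (h2 : finrank ℚ K = 2) : Basis (Fin 2) ℤ (𝓞 K) :=
  (Module.finBasisOfFinrankEq ℤ (𝓞 K) (by rw [RingOfIntegers.rank, h2]))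

lemma disc_pair (h2 : finrank ℚ K = 2) (α : 𝓞 K) (t n : ℤ)
    (hα : α ^ 2 - (t : 𝓞 K) * α + (n : 𝓞 K) = 0) (hirr : ∀ q : ℚ, q ^ 2 - t * q + n ≠ 0) :
    t ^ 2 - 4 * n = ((bas h2).toMatrix ![1, α]).det ^ 2 * discr K := by
  have h1 : Algebra.discr ℤ (![1, α] : Fin 2 → 𝓞 K) =
      ((bas h2).toMatrix ![1, α]).det ^ 2 * discr K := by
    have e := Algebra.discr_of_matrix_vecMul (A := ℤ) (B := 𝓞 K) (bas h2)
      ((bas h2).toMatrix ![1, α])
    rw [Basis.toMatrix_map_vecMul] at e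
    rw [e, NumberField.discr_eq_discr]
  rw [← h1]
  have hαK : (α : K) ^ 2 - ((t : ℚ) : K) * (α : K) + ((n : ℚ) : K) = 0 := by
    have := congrArg (algebraMap (𝓞 K) K) hα
    push_cast
    simpa using this
  have ht : Algebra.trace ℤ (𝓞 K) α = t := by
    have e1 := trace_quad h2 (α : K) t n hαK hirr
    have e2 := Algebra.coe_trace_int (K := K) α
    exact_mod_cast e2.trans e1
  have h11 : Algebra.trace ℤ (𝓞 K) (1 : 𝓞 K) = 2 := by
    have e2 := Algebra.coe_trace_int (K := K) (1 : 𝓞 K)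
    have e3 : Algebra.trace ℚ K (1 : K) = 2 := by
      have := Algebra.trace_algebraMap (R := ℚ) (S := K) (1 : ℚ)
      rw [map_one] at this
      rw [this, h2]; simp
    have e4 : ((1 : 𝓞 K) : K) = 1 := rfl
    rw [e4, e3] at e2
    exact_mod_cast e2
  have hsq : α ^ 2 = t • α - n • (1 : 𝓞 K) := by
    have : α ^ 2 = (t : 𝓞 K) * α - (n : 𝓞 K) := by linear_combination hα
    rw [this]
    simp
  have h22 : Algebra.trace ℤ (𝓞 K) (α * α) = t ^ 2 - 2 * n := by
    rw [← sq, hsq, map_sub, map_smul, map_smul, ht, h11]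
    simp only [smul_eq_mul]
    ring
  rw [Algebra.discr_def, Matrix.det_fin_two]
  simp only [Algebra.traceMatrix_apply, Algebra.traceForm_apply, Matrix.cons_val_zero,
    Matrix.cons_val_one, one_mul, mul_one, ht, h11, h22]
  ring

lemma disc_sq (h2 : finrank ℚ K = 2) (α : 𝓞 K) (t n : ℤ)
    (hα : α ^ 2 - (t : 𝓞 K) * α + (n : 𝓞 K) = 0) (hirr : ∀ q : ℚ, q ^ 2 - t * q + n ≠ 0) :
    ∃ k : ℤ, t ^ 2 - 4 * n = k ^ 2 * discr K := ⟨_, disc_pair h2 α t n hα hirr⟩

lemma no_root_of_neg {t n : ℤ} (h : t ^ 2 - 4 * n < 0) : ∀ q : ℚ, q ^ 2 - t * q + n ≠ 0 := by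
  intro q hq
  have h1 : (2 * q - t) ^ 2 = ((t ^ 2 - 4 * n : ℤ) : ℚ) := by push_cast; linear_combination 4 * hq
  have h2 : (((t ^ 2 - 4 * n : ℤ)) : ℚ) < 0 := by exact_mod_cast h
  rw [← h1] at h2
  exact absurd h2 (not_lt.2 (sq_nonneg _))

/-- discriminant, `p = 3` mod `4` -/
lemma discr_three (h2 : finrank ℚ K = 2) {p : ℕ} (hp : p.Prime) (h4 : p % 4 = 3) (y : K)
    (hy : y ^ 2 = -(p : K)) : discr K = -(p : ℤ) := by
  obtain ⟨m, hm⟩ : ∃ m : ℕ, p + 1 = 4 * m := ⟨(p + 1) / 4, by omega⟩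
  have hmK : (p : K) + 1 = 4 * m := by exact_mod_cast congrArg (Nat.cast (R := K)) hm
  have hz : ((1 + y) / 2) ^ 2 - (1 + y) / 2 + (m : K) = 0 := by
    linear_combination hy / 4 - hmK / 4
  have hint : IsIntegral ℤ ((1 + y) / 2 : K) := by
    refine ⟨Polynomial.X ^ 2 - Polynomial.X + Polynomial.C (m : ℤ), ?_, ?_⟩
    · monicity!
    · rw [← Polynomial.aeval_def]
      simpa using hz
  set α : 𝓞 K := ⟨(1 + y) / 2, hint⟩ with hαdef
  have hα : α ^ 2 - ((1 : ℤ) : 𝓞 K) * α + ((m : ℤ) : 𝓞 K) = 0 := by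
    apply RingOfIntegers.ext
    push_cast
    rw [one_mul]
    exact hz
  obtain ⟨k, hk⟩ := disc_sq h2 α 1 m hα (no_root_of_neg (by omega))
  have hpm : (1 : ℤ) ^ 2 - 4 * m = -(p : ℤ) := by omega
  rw [hpm] at hk
  have hk1 : k ^ 2 ∣ (p : ℤ) := by
    have : k ^ 2 ∣ -(p : ℤ) := ⟨_, hk⟩
    rwa [dvd_neg] at this
  have hpi : Prime (p : ℤ) := Nat.prime_iff_prime_int.1 hp
  have hu : IsUnit k := hpi.squarefree k (by rwa [← sq])
  have : k ^ 2 = 1 := by
    rcases Int.isUnit_iff.1 hu with rfl | rfl <;> norm_num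
  rw [this, one_mul] at hk
  exact hk.symm

/-- discriminant, `p = 1` mod `4` -/
lemma discr_one (h2 : finrank ℚ K = 2) {p : ℕ} (hp : p.Prime) (h4 : p % 4 = 1) (y : K)
    (hy : y ^ 2 = -(p : K)) : discr K = -(4 * p : ℤ) := by
  have hint : IsIntegral ℤ (y : K) := by
    refine ⟨Polynomial.X ^ 2 + Polynomial.C (p : ℤ), ?_, ?_⟩
    · monicity!
    · rw [← Polynomial.aeval_def]
      simp [hy]
  set α : 𝓞 K := ⟨y, hint⟩ with hαdef
  have hα' : α ^ 2 = -(p : 𝓞 K) := by
    apply RingOfIntegers.ext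
    push_cast
    exact hy
  have hα : α ^ 2 - ((0 : ℤ) : 𝓞 K) * α + ((p : ℤ) : 𝓞 K) = 0 := by
    push_cast
    linear_combination hα'
  have hp0 := hp.pos
  have hk := disc_pair h2 α 0 p hα (no_root_of_neg (by omega))
  set P := (bas h2).toMatrix ![1, α] with hP
  have hvec : ∀ j, (![1, α] : Fin 2 → 𝓞 K) j = (P 0 j : 𝓞 K) * bas h2 0 + (P 1 j : 𝓞 K) * bas h2 1 := by
    intro j
    have := Basis.toMatrix_map_vecMul (bas h2) (![1, α] : Fin 2 → 𝓞 K)
    have h := congrFun this j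
    rw [← h]
    simp only [Matrix.vecMul, dotProduct, Fin.sum_univ_two, Matrix.map_apply]
    rw [← hP]
    simp only [eq_intCast]
    ring
  have key : ∀ c0 c1 : ℤ, 2 ∣ P 0 0 * c0 + P 0 1 * c1 → 2 ∣ P 1 0 * c0 + P 1 1 * c1 →
      2 ∣ c0 ∧ 2 ∣ c1 := by
    rintro c0 c1 ⟨u, hu⟩ ⟨v, hv⟩
    set β : 𝓞 K := (u : 𝓞 K) * bas h2 0 + (v : 𝓞 K) * bas h2 1 with hβ
    have e0 := hvec 0
    have e1 := hvec 1
    simp only [Matrix.cons_val_zero, Matrix.cons_val_one] at e0 e1
    have hu' : (P 0 0 : 𝓞 K) * c0 + (P 0 1 : 𝓞 K) * c1 = 2 * u := by exact_mod_cast congrArg (Int.cast (R := 𝓞 K)) hu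
    have hv' : (P 1 0 : 𝓞 K) * c0 + (P 1 1 : 𝓞 K) * c1 = 2 * v := by exact_mod_cast congrArg (Int.cast (R := 𝓞 K)) hv
    have h2b : (c0 : 𝓞 K) + c1 * α = 2 * β := by
      calc (c0 : 𝓞 K) + c1 * α = c0 * 1 + c1 * α := by ring
        _ = c0 * ((P 0 0 : 𝓞 K) * bas h2 0 + (P 1 0 : 𝓞 K) * bas h2 1) +
            c1 * ((P 0 1 : 𝓞 K) * bas h2 0 + (P 1 1 : 𝓞 K) * bas h2 1) := by rw [← e0, ← e1]
        _ = ((P 0 0 : 𝓞 K) * c0 + (P 0 1 : 𝓞 K) * c1) * bas h2 0 +
            ((P 1 0 : 𝓞 K) * c0 + (P 1 1 : 𝓞 K) * c1) * bas h2 1 := by ring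
        _ = 2 * β := by rw [hu', hv', hβ]; ring
    have h4b : 4 * (β * (c0 - β)) = ((c0 ^ 2 + p * c1 ^ 2 : ℤ) : 𝓞 K) := by
      push_cast
      linear_combination (2 * β - c0 + c1 * α) * h2b - c1 ^ 2 * hα'
    have hdv : (4 : ℤ) ∣ c0 ^ 2 + p * c1 ^ 2 := by
      have hq : ((β * (c0 - β) : 𝓞 K) : K) = (((c0 ^ 2 + p * c1 ^ 2 : ℤ) / 4 : ℚ) : K) := by
        have := congrArg (algebraMap (𝓞 K) K) h4b
        rw [map_mul] at this
        have e : (algebraMap (𝓞 K) K) (4 : 𝓞 K) = 4 := map_ofNat _ 4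
        rw [e] at this
        have e' : (algebraMap (𝓞 K) K) ((c0 ^ 2 + p * c1 ^ 2 : ℤ) : 𝓞 K) = ((c0 ^ 2 + p * c1 ^ 2 : ℤ) : K) := by
          simp
        rw [e'] at this
        push_cast at this ⊢
        rw [eq_div_iff (by norm_num : (4 : K) ≠ 0)]
        rw [mul_comm]
        exact this
      have hi : IsIntegral ℤ (((c0 ^ 2 + p * c1 ^ 2 : ℤ) / 4 : ℚ)) := by
        have h5 : IsIntegral ℤ ((algebraMap ℚ K) (((c0 ^ 2 + p * c1 ^ 2 : ℤ) / 4 : ℚ))) := by
          have : (algebraMap ℚ K) (((c0 ^ 2 + p * c1 ^ 2 : ℤ) / 4 : ℚ)) = ((β * (c0 - β) : 𝓞 K) : K) := by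
            rw [hq]; simp
          rw [this]
          exact RingOfIntegers.isIntegral_coe _
        exact (isIntegral_algebraMap_iff (algebraMap ℚ K).injective).1 h5
      obtain ⟨z, hz⟩ := IsIntegrallyClosed.isIntegral_iff.mp hi
      refine ⟨z, ?_⟩
      have h6 : ((z : ℤ) : ℚ) = ((c0 ^ 2 + p * c1 ^ 2 : ℤ) / 4 : ℚ) := by simpa using hz
      have h7 : ((c0 ^ 2 + p * c1 ^ 2 : ℤ) : ℚ) = ((4 * z : ℤ) : ℚ) := by
        push_cast at h6 ⊢
        rw [h6]; ring
      exact_mod_cast h7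
    have hpz : (p : ℤ) % 4 = 1 := by omega
    obtain ⟨w, hw⟩ := hdv
    have hmod : (c0 ^ 2 + c1 ^ 2) % 4 = 0 := by
      obtain ⟨r, hr⟩ : ∃ r : ℤ, (p : ℤ) = 4 * r + 1 := ⟨(p : ℤ) / 4, by omega⟩
      rw [hr] at hw
      have : c0 ^ 2 + c1 ^ 2 = 4 * (w - r * c1 ^ 2) := by linear_combination hw
      omega
    rcases Int.even_or_odd' c0 with ⟨a, ha | ha⟩ <;> rcases Int.even_or_odd' c1 with ⟨b, hb | hb⟩
    · exact ⟨⟨a, ha⟩, ⟨b, hb⟩⟩
    · exfalso
      have : c0 ^ 2 + c1 ^ 2 = 4 * (a ^ 2 + b ^ 2 + b) + 1 := by rw [ha, hb]; ring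
      omega
    · exfalso
      have : c0 ^ 2 + c1 ^ 2 = 4 * (a ^ 2 + a + b ^ 2) + 1 := by rw [ha, hb]; ring
      omega
    · exfalso
      have : c0 ^ 2 + c1 ^ 2 = 4 * (a ^ 2 + a + b ^ 2 + b) + 2 := by rw [ha, hb]; ring
      omega
  have hdet : P.det = P 0 0 * P 1 1 - P 0 1 * P 1 0 := Matrix.det_fin_two P
  have hodd : ¬ (2 ∣ P.det) := by
    rintro ⟨e, he⟩
    have k1 := key (P 1 1) (-P 1 0) ⟨e, by rw [hdet] at he; linarith⟩ ⟨0, by ring⟩
    have k2 := key (P 0 1) (-P 0 0) ⟨0, by ring⟩ ⟨-e, by rw [hdet] at he; linarith⟩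
    have k3 := key 1 0 (by rw [mul_one, mul_zero, add_zero]; exact (dvd_neg.1 k2.2))
      (by rw [mul_one, mul_zero, add_zero]; exact (dvd_neg.1 k1.2))
    exact absurd k3.1 (by norm_num)
  have hk2 : (P.det) ^ 2 ∣ 4 * (p : ℤ) := by
    have : (P.det) ^ 2 ∣ -(4 * (p : ℤ)) := ⟨_, by rw [← hk]; ring⟩
    rwa [dvd_neg] at this
  have hcop : IsCoprime ((P.det) ^ 2) (4 : ℤ) := by
    have h1 : IsCoprime (P.det) (2 : ℤ) := by
      rw [isCoprime_comm, Prime.coprime_iff_not_dvd Int.prime_two]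
      exact hodd
    have := (h1.pow (m := 2) (n := 2))
    norm_num at this
    exact this
  have hk1 : (P.det) ^ 2 ∣ (p : ℤ) := hcop.dvd_of_dvd_mul_left hk2
  have hpi : Prime (p : ℤ) := Nat.prime_iff_prime_int.1 hp
  have hu : IsUnit P.det := hpi.squarefree _ (by rwa [← sq])
  have : P.det ^ 2 = 1 := by
    rcases Int.isUnit_iff.1 hu with h | h <;> rw [h] <;> norm_num
  rw [this, one_mul] at hk
  rw [← hk]
  ring

/-- the torsion -/
lemma torsion_two (h2 : finrank ℚ K = 2) {p : ℕ} (hp : p.Prime) (h5 : 5 ≤ p)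
    (hd : (p : ℤ) ∣ discr K) : Units.torsionOrder K = 2 := by
  have hprim : ∀ k : ℕ, k ∣ Units.torsionOrder K → ∃ z : 𝓞 K, IsPrimitiveRoot z k := by
    intro k hk
    obtain ⟨g, hg⟩ := IsCyclic.exists_generator (α := Units.torsion K)
    have ho : orderOf g = Units.torsionOrder K := by
      rw [Units.torsionOrder]
      exact orderOf_eq_card_of_forall_mem_zpowers hg
    have hw := Units.torsionOrder_pos K
    obtain ⟨m, hm⟩ := hk
    have hm0 : m ≠ 0 := by rintro rfl; omega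
    have hk0 : k ≠ 0 := by rintro rfl; omega
    have ho2 : orderOf (g ^ m) = k := by
      rw [orderOf_pow, ho, hm, Nat.gcd_mul_left_left, Nat.mul_div_cancel _ (Nat.pos_of_ne_zero hm0)]
    refine ⟨((g ^ m : Units.torsion K) : (𝓞 K)ˣ), ?_⟩
    have h1 := IsPrimitiveRoot.orderOf (g ^ m)
    rw [ho2] at h1
    have h2 := h1.map_of_injective (f := (Units.torsion K).subtype) Subtype.val_injective
    exact h2.map_of_injective (f := Units.coeHom (𝓞 K)) Units.val_injective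
  have hpi : Prime (p : ℤ) := Nat.prime_iff_prime_int.1 hp
  have no4 : ¬ 4 ∣ Units.torsionOrder K := by
    intro h
    obtain ⟨z, hz⟩ := hprim 4 h
    have hz2 : z ^ 2 = -1 := by
      have h1 := hz.pow_eq_one
      have h3 : z ^ 2 ≠ 1 := hz.pow_ne_one_of_pos_of_lt (by norm_num) (by norm_num)
      have h4 : (z ^ 2 - 1) * (z ^ 2 + 1) = 0 := by linear_combination h1
      rcases mul_eq_zero.1 h4 with h | h
      · exact absurd (sub_eq_zero.1 h) h3
      · linear_combination h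
    obtain ⟨k, hk⟩ := disc_sq h2 z 0 1 (by push_cast; linear_combination hz2) (no_root_of_neg (by norm_num))
    have : (p : ℤ) ∣ 4 := by
      have h6 : (p : ℤ) ∣ (0 : ℤ) ^ 2 - 4 * 1 := by rw [hk]; exact hd.mul_left _
      norm_num at h6
      exact h6
    have := Int.le_of_dvd (by norm_num) this
    omega
  have noq : ∀ q : ℕ, q.Prime → q ≠ 2 → ¬ q ∣ Units.torsionOrder K := by
    intro q hq hq2 h
    obtain ⟨z, hz⟩ := hprim q h
    have hq3 : q = 3 := by
      have hzK : IsPrimitiveRoot (z : K) q := hz.map_of_injective (f := algebraMap (𝓞 K) K) RingOfIntegers.coe_injective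
      have h6 := hzK.totient_le_degree_minpoly
      have h7 : (minpoly ℤ (z : K)).natDegree ≤ 2 := by
        have h8 : minpoly ℚ (z : K) = (minpoly ℤ (z : K)).map (algebraMap ℤ ℚ) :=
          minpoly.isIntegrallyClosed_eq_field_fractions' ℚ (RingOfIntegers.isIntegral_coe z)
        have h9 := minpoly.natDegree_le (A := ℚ) (z : K)
        rw [h8, Polynomial.natDegree_map_eq_of_injective (algebraMap ℤ ℚ).injective_int, h2] at h9
        exact h9
      rw [Nat.totient_prime hq] at h6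
      have := hq.two_le
      omega
    subst hq3
    have hz2 : z ^ 2 + z + 1 = 0 := by
      have h1 := hz.pow_eq_one
      have h3 : z ≠ 1 := hz.ne_one (by norm_num)
      have h4 : (z - 1) * (z ^ 2 + z + 1) = 0 := by linear_combination h1
      exact (mul_eq_zero.1 h4).resolve_left (sub_ne_zero.2 h3)
    obtain ⟨k, hk⟩ := disc_sq h2 z (-1) 1 (by push_cast; linear_combination hz2) (no_root_of_neg (by norm_num))
    have : (p : ℤ) ∣ 3 := by
      have h6 : (p : ℤ) ∣ (-1 : ℤ) ^ 2 - 4 * 1 := by rw [hk]; exact hd.mul_left _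
      norm_num at h6
      exact h6
    have := Int.le_of_dvd (by norm_num) this
    omega
  obtain ⟨m, hm⟩ := even_iff_two_dvd.1 (Units.even_torsionOrder K)
  have hm0 : m ≠ 0 := by
    rintro rfl
    have := Units.torsionOrder_pos K
    omega
  by_contra hne
  have hm1 : m ≠ 1 := by rintro rfl; omega
  obtain ⟨q, hq, hqm⟩ := Nat.exists_prime_and_dvd hm1
  by_cases hq2 : q = 2
  · subst hq2
    obtain ⟨r, hr⟩ := hqm
    exact no4 ⟨r, by rw [hm, hr]; ring⟩
  · exact noq q hq hq2 (hm ▸ hqm.mul_left 2)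

/-- the residue of the zeta function -/
lemma residue_formula (h2 : finrank ℚ K = 2) {N : ℕ} (hN : 0 < N) (y : K) (hy : y ^ 2 = -(N : K))
    {p : ℕ} (hp : p.Prime) (h5 : 5 ≤ p) (hd : (p : ℤ) ∣ discr K) :
    dedekindZeta_residue K = Real.pi * classNumber K / Real.sqrt |(discr K : ℝ)| := by
  have : IsTotallyComplex K := by
    refine ⟨fun w => ?_⟩
    rw [← InfinitePlace.not_isReal_iff_isComplex]
    intro hw
    have e := InfinitePlace.embedding_of_isReal hw
    have h1 := congrArg e hy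
    rw [map_pow, map_neg, map_natCast] at h1
    have h3 : (0 : ℝ) < N := by exact_mod_cast hN
    nlinarith [sq_nonneg (e y)]
  have htc : InfinitePlace.nrRealPlaces K = 0 := IsTotallyComplex.nrRealPlaces_eq_zero K
  have hc := InfinitePlace.card_add_two_mul_card_eq_rank K
  rw [htc, h2] at hc
  have hc1 : InfinitePlace.nrComplexPlaces K = 1 := by omega
  have hreg : Units.regulator K = 1 := by
    obtain ⟨w'⟩ : Nonempty (InfinitePlace K) := inferInstance
    have hcard : Fintype.card (InfinitePlace K) = 1 := by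
      rw [InfinitePlace.card_eq_nrRealPlaces_add_nrComplexPlaces, htc, hc1]
    have hr : Units.rank K = 0 := by rw [Units.rank, hcard]
    have : IsEmpty (Fin (Units.rank K)) := by rw [hr]; infer_instance
    have hemp : IsEmpty {w : InfinitePlace K // w ≠ w'} := by
      refine ⟨fun w => w.2 ?_⟩
      have := Fintype.card_le_one_iff_subsingleton.1 hcard.le
      exact Subsingleton.elim _ _
    rw [Units.regulator_eq_det K w' (Equiv.equivOfIsEmpty _ _)]
    classical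
    rw [Matrix.det_eq_one_of_card_eq_zero (Fintype.card_eq_zero_iff.2 hemp), abs_one]
  rw [dedekindZeta_residue_def, htc, hc1, hreg, torsion_two h2 hp h5 hd]
  have : Real.sqrt |(discr K : ℝ)| ≠ 0 := by
    apply (Real.sqrt_pos_of_pos _).ne'
    exact abs_pos.2 (by exact_mod_cast discr_ne_zero K)
  field_simp
  push_cast
  ring

end

end Pool.Agent.Q267.CN
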