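import Mathlib
import Pool.Agent.Y125.XT.Res
import Pool.Agent.Q267.CN.LOne
import Pool.Agent.Q267.CN.Quad

/-! The residue of the Dedekind zeta function of `ℚ(√-m)` as the value at `1` of an `L`-function. -/

set_option autoImplicit false

namespace Pool.Agent.Q267.CN

open NumberField Module IsCyclotomicExtension.Rat H300.HW Finset

section

variable (m : ℕ) [NeZero m] (L : Type) [Field L] [NumberField L] [IsCyclotomicExtension {m} ℚ L]

lemma exists_phi : ∃ φ : L →+* ℂ,
    φ ((zz m L : 𝓞 L) : L) = Complex.exp (2 * Real.pi * Complex.I / m) := by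
  obtain ⟨φ₀⟩ : Nonempty (L →+* ℂ) := inferInstance
  have hz : IsPrimitiveRoot (φ₀ ((zz m L : 𝓞 L) : L)) m := by
    have h1 : IsPrimitiveRoot ((zz m L : 𝓞 L) : L) m := by
      have := zz_prim m L
      exact this.map_of_injective (f := algebraMap (𝓞 L) L) (RingOfIntegers.coe_injective)
    exact h1.map_of_injective φ₀.injective
  have he : IsPrimitiveRoot (Complex.exp (2 * Real.pi * Complex.I / m)) m :=
    Complex.isPrimitiveRoot_exp m (NeZero.ne m)
  obtain ⟨i, hi, hco, hpow⟩ := (hz.isPrimitiveRoot_iff).1 he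
  refine ⟨φ₀.comp ((galEquivZMod m L).symm (ZMod.unitOfCoprime i hco) : L →+* L), ?_⟩
  have h2 := galEquivZMod_apply_of_pow_eq m L ((galEquivZMod m L).symm (ZMod.unitOfCoprime i hco))
    (x := ((zz m L : 𝓞 L) : L)) (by
      have := (zz_prim m L).pow_eq_one
      have h3 := congrArg (fun x : 𝓞 L => (x : L)) this
      simpa using h3)
  rw [MulEquiv.apply_symm_apply] at h2
  rw [RingHom.comp_apply]
  show φ₀ ((galEquivZMod m L).symm (ZMod.unitOfCoprime i hco) ((zz m L : 𝓞 L) : L)) = _
  rw [h2, map_pow, ← hpow, ZMod.coe_unitOfCoprime, ZMod.val_natCast, Nat.mod_eq_of_lt hi]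

variable {m} in
/-- the complex character -/
noncomputable def cc (X : MulChar (ZMod m) ℤ) : DirichletCharacter ℂ m :=
  X.ringHomComp (Int.castRingHom ℂ)

variable {m} in
omit [NeZero m] in
lemma cc_apply (X : MulChar (ZMod m) ℤ) (a : ZMod m) : cc X a = (X a : ℂ) := rfl

variable {m} in
omit [NeZero m] in
lemma X_sq (X : MulChar (ZMod m) ℤ) (u : (ZMod m)ˣ) : X u * X u = 1 := by
  have h := (X.toUnitHom u)
  have h1 : X (u : ZMod m) = (X.toUnitHom u : ℤ) := (MulChar.coe_toUnitHom X u).symm
  rw [h1]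
  rcases Int.units_eq_one_or (X.toUnitHom u) with h | h <;> rw [h] <;> norm_num

variable {m} in
omit [NeZero m] in
lemma cc_inv (X : MulChar (ZMod m) ℤ) : (cc X)⁻¹ = cc X := by
  rw [inv_eq_iff_mul_eq_one]
  apply MulChar.ext
  intro u
  rw [MulChar.mul_apply, cc_apply, MulChar.one_apply_coe]
  exact_mod_cast X_sq X u

/-- the Gauss sum in the cyclotomic field -/
noncomputable def gs (X : MulChar (ZMod m) ℤ) : L :=
  ∑ j : ZMod m, (X j : L) * ((zz m L : 𝓞 L) : L) ^ j.val

lemma zpow_one : ((zz m L : 𝓞 L) : L) ^ m = 1 := by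
  have := (zz_prim m L).pow_eq_one
  have h3 := congrArg (fun x : 𝓞 L => (x : L)) this
  simpa using h3

lemma gal_gs (X : MulChar (ZMod m) ℤ) (σ : Gal(L/ℚ)) :
    σ (gs m L X) = (X (galEquivZMod m L σ : ZMod m) : L) * gs m L X := by
  set u := galEquivZMod m L σ with hu
  unfold gs
  rw [map_sum, mul_sum]
  refine Eq.trans (sum_congr rfl fun j _ => ?_) (Equiv.sum_comp (Units.mulLeft u) _)
  rw [map_mul, map_intCast, map_pow, galEquivZMod_apply_of_pow_eq m L σ (zpow_one m L), ← hu,
    Units.mulLeft_apply, map_mul, ← pow_mul]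
  have h1 : ((zz m L : 𝓞 L) : L) ^ ((u : ZMod m).val * j.val) =
      ((zz m L : 𝓞 L) : L) ^ (((u : ZMod m) * j).val) := by
    rw [ZMod.val_mul]
    exact pow_eq_pow_mod _ (zpow_one m L)
  rw [h1]
  have h2 : (X (u : ZMod m) : L) * (X (u : ZMod m) : L) = 1 := by exact_mod_cast congrArg (Int.cast (R := L)) (X_sq X u)
  push_cast
  linear_combination -(X j : L) * ((zz m L : 𝓞 L) : L) ^ (((u : ZMod m) * j).val) * h2

lemma phi_gs (X : MulChar (ZMod m) ℤ) (φ : L →+* ℂ)
    (hφ : φ ((zz m L : 𝓞 L) : L) = Complex.exp (2 * Real.pi * Complex.I / m)) :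
    φ (gs m L X) = gaussSum (cc X) ZMod.stdAddChar := by
  unfold gs gaussSum
  rw [map_sum]
  refine sum_congr rfl fun j _ => ?_
  rw [map_mul, map_intCast, map_pow, hφ, cc_apply, ZMod.stdAddChar_apply, ZMod.toCircle_apply,
    ← Complex.exp_nat_mul]
  congr 2
  ring

variable {m L} in
lemma gs_sq {X : MulChar (ZMod m) ℤ} (ho : (cc X).Odd) (hp : (cc X).IsPrimitive) :
    gs m L X ^ 2 = -(m : L) := by
  obtain ⟨φ, hφ⟩ := exists_phi m L
  apply φ.injective
  rw [map_pow, phi_gs m L X φ hφ, gauss_sq ho hp (cc_inv X), map_neg, map_natCast]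

variable {m} in
lemma prim_L {χ : DirichletCharacter ℂ m} (hp : χ.IsPrimitive) :
    Pool.Agent.Y682.XT.Lone χ = DirichletCharacter.LFunction χ 1 := by
  unfold Pool.Agent.Y682.XT.Lone
  have h : ∀ (n : ℕ) (hn : NeZero n) (h : n ∣ m) (_ : n = m) (ψ : DirichletCharacter ℂ n),
      DirichletCharacter.changeLevel h ψ = χ →
      @DirichletCharacter.LFunction n hn ψ 1 = DirichletCharacter.LFunction χ 1 := by
    intro n hn h e ψ he
    subst e
    rw [← he, DirichletCharacter.changeLevel_self]
  exact h χ.conductor _ χ.conductor_dvd_level hp χ.primitiveCharacter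
    χ.changeLevel_primitiveCharacter

variable {m L} in
lemma finrank_F {X : MulChar (ZMod m) ℤ} (ho : (cc X).Odd) (hp : (cc X).IsPrimitive) :
    finrank ℚ (IntermediateField.adjoin ℚ {gs m L X}) = 2 := by
  have hsq := gs_sq (L := L) ho hp
  have hmin : minpoly ℚ (gs m L X) = Polynomial.X ^ 2 + Polynomial.C (m : ℚ) := by
    symm
    apply minpoly.eq_of_irreducible_of_monic
    · refine Polynomial.irreducible_of_degree_le_three_of_not_isRoot ?_ ?_
      · have : (Polynomial.X ^ 2 + Polynomial.C (m : ℚ)).natDegree = 2 := by compute_degree!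
        rw [this]; simp
      · intro q hq
        rw [Polynomial.IsRoot.def] at hq
        simp only [Polynomial.eval_add, Polynomial.eval_pow, Polynomial.eval_X, Polynomial.eval_C] at hq
        have h1 : (0 : ℚ) < m := by exact_mod_cast NeZero.pos m
        nlinarith [sq_nonneg q]
    · simp [hsq]
    · monicity!
  rw [IntermediateField.adjoin.finrank (Algebra.IsIntegral.isIntegral _), hmin]
  compute_degree!

variable {m L} in
theorem residue_F {X : MulChar (ZMod m) ℤ} (ho : (cc X).Odd) (hp : (cc X).IsPrimitive) :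
    (dedekindZeta_residue (IntermediateField.adjoin ℚ {gs m L X}) : ℂ) =
      DirichletCharacter.LFunction (cc X) 1 := by
  classical
  set F := IntermediateField.adjoin ℚ {gs m L X} with hF
  have h2 : finrank ℚ F = 2 := finrank_F ho hp
  have hg0 : gs m L X ≠ 0 := by
    intro h
    have hsq := gs_sq (L := L) ho hp
    rw [h] at hsq
    have : (m : L) = 0 := by linear_combination hsq
    exact (NeZero.ne m) (by exact_mod_cast this)
  have hmem : cc X ∈ YY m L F := by
    rw [mem_YY]
    intro σ hσ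
    have h1 := gal_gs m L X σ
    have h3 : σ (gs m L X) = gs m L X := by
      rw [IntermediateField.mem_fixingSubgroup_iff] at hσ
      exact hσ _ (IntermediateField.mem_adjoin_simple_self ℚ _)
    rw [h3] at h1
    have h4 : ((X (galEquivZMod m L σ : ZMod m) : ℤ) : L) = 1 := by
      have : ((X (galEquivZMod m L σ : ZMod m) : ℤ) : L) * gs m L X = 1 * gs m L X := by
        rw [← h1, one_mul]
      exact mul_right_cancel₀ hg0 this
    have h5 : X (galEquivZMod m L σ : ZMod m) = 1 := by exact_mod_cast h4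
    rw [cc_apply, h5]
    simp
  have hne : cc X ≠ 1 := odd_ne_one ho
  have hcard : Nat.card (YY m L F) = 2 := by
    rw [card_YY]
    have : IsGalois ℚ L := IsCyclotomicExtension.isGalois {m} ℚ L
    rw [← h2]
    exact (IntermediateField.finrank_eq_fixingSubgroup_index _ F).symm
  have hunique : ∀ χ : DirichletCharacter ℂ m, χ ∈ YY m L F → χ ≠ 1 → χ = cc X := by
    intro χ hχ h1
    by_contra h3
    have : Fintype (YY m L F) := Fintype.ofFinite _
    have hc : 3 ≤ Fintype.card (YY m L F) := by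
      have hs : ({⟨1, one_mem _⟩, ⟨cc X, hmem⟩, ⟨χ, hχ⟩} : Finset (YY m L F)).card = 3 := by
        rw [card_eq_three]
        refine ⟨_, _, _, ?_, ?_, ?_, rfl⟩
        · intro h; exact hne (congrArg Subtype.val h).symm
        · intro h; exact h1 (congrArg Subtype.val h).symm
        · intro h; exact h3 (congrArg Subtype.val h).symm
      rw [← hs]
      exact card_le_univ _
    rw [← Nat.card_eq_fintype_card, hcard] at hc
    omega
  rw [Pool.Agent.Y125.XT.s_res m L F]
  let _ : Unique {χ : DirichletCharacter ℂ m // χ ∈ YY m L F ∧ χ ≠ 1} :=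
    { default := ⟨cc X, hmem, hne⟩
      uniq := fun χ => Subtype.ext (hunique χ.1 χ.2.1 χ.2.2) }
  rw [finprod_unique]
  show Pool.Agent.Y682.XT.Lone (cc X) = _
  exact prim_L hp

end

end Pool.Agent.Q267.CN
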