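import Mathlib
import Pool.Agent.Q267.CN.ResC
import Pool.Agent.Q267.CN.Iso
import Pool.Agent.H375R3.RZ5_PO

/-! Dirichlet's class number formula for `ℚ(√-p)`. -/

set_option autoImplicit false

namespace Pool.Agent.Q267.CN

open NumberField Module Finset

/-- the integer `∑_{0 ≤ j < m} j X(j)` -/
noncomputable def fm {m : ℕ} [NeZero m] (X : MulChar (ZMod m) ℤ) : ℤ :=
  ∑ j : ZMod m, (j.val : ℤ) * X j

lemma fm_eq {m : ℕ} [NeZero m] (X : MulChar (ZMod m) ℤ) : firstMoment (cc X) = (fm X : ℂ) := by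
  unfold firstMoment fm
  push_cast
  refine sum_congr rfl fun j _ => ?_
  rw [cc_apply]

theorem cnf_gauss_aux (L : Type) [Field L] [NumberField L] {m : ℕ} [NeZero m] [IsCyclotomicExtension {m} ℚ L] {X : MulChar (ZMod m) ℤ} (ho : (cc X).Odd)
    (hp : (cc X).IsPrimitive) {q : ℕ} (hq : q.Prime) (h5 : 5 ≤ q) (hqm : q ∣ m)
    (hd : ∀ (F : Type) [Field F] [NumberField F], finrank ℚ F = 2 → ∀ y : F, y ^ 2 = -(m : F) →
      discr F = -(m : ℤ))
    {K : Type*} [Field K] [NumberField K] (hK : finrank ℚ K = 2) (y : K) (hy : y ^ 2 = -(m : K)) :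
    ((classNumber K : ℝ) : ℂ) / (Real.sqrt m : ℝ) =
      Complex.I * gaussSum (cc X) ZMod.stdAddChar / (m : ℂ) ^ 2 * (fm X : ℂ) := by
  have hm : 0 < m := NeZero.pos m
  obtain ⟨e⟩ := nonempty_equiv hK hm hy (gs_sq (L := L) ho hp)
  rw [classNumber_congr e]
  set F := IntermediateField.adjoin ℚ {gs m L X} with hF
  have h2 : finrank ℚ F = 2 := finrank_F ho hp
  have hz : (⟨gs m L X, IntermediateField.mem_adjoin_simple_self ℚ _⟩ : F) ^ 2 = -(m : F) := by
    apply Subtype.ext
    push_cast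
    exact gs_sq ho hp
  have hdF := hd F h2 _ hz
  have hres := residue_formula h2 hm _ hz hq h5 (by rw [hdF, dvd_neg]; exact_mod_cast hqm)
  have hresF := residue_F (L := L) ho hp
  rw [L_one ho hp (cc_inv X), fm_eq, ← hF, hres, hdF] at hresF
  have habs : |((-(m : ℤ) : ℤ) : ℝ)| = m := by
    push_cast
    rw [abs_neg]
    exact abs_of_nonneg (Nat.cast_nonneg _)
  rw [habs] at hresF
  have hpi : (Real.pi : ℂ) ≠ 0 := by exact_mod_cast Real.pi_ne_zero
  apply mul_left_cancel₀ hpi
  push_cast at hresF ⊢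
  rw [← mul_div_assoc, hresF]
  ring

/-- the class number as a value of an `L`-function -/
theorem cnf_gauss {m : ℕ} [NeZero m] {X : MulChar (ZMod m) ℤ} (ho : (cc X).Odd)
    (hp : (cc X).IsPrimitive) {q : ℕ} (hq : q.Prime) (h5 : 5 ≤ q) (hqm : q ∣ m)
    (hd : ∀ (F : Type) [Field F] [NumberField F], finrank ℚ F = 2 → ∀ y : F, y ^ 2 = -(m : F) →
      discr F = -(m : ℤ))
    {K : Type*} [Field K] [NumberField K] (hK : finrank ℚ K = 2) (y : K) (hy : y ^ 2 = -(m : K)) :
    ((classNumber K : ℝ) : ℂ) / (Real.sqrt m : ℝ) =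
      Complex.I * gaussSum (cc X) ZMod.stdAddChar / (m : ℂ) ^ 2 * (fm X : ℂ) := by
  have : NeZero ((m : ℕ) : ℚ) := ⟨by exact_mod_cast NeZero.ne m⟩
  have : IsCyclotomicExtension {m} ℚ (CyclotomicField m ℚ) :=
    CyclotomicField.isCyclotomicExtension m ℚ
  exact cnf_gauss_aux (CyclotomicField m ℚ) ho hp hq h5 hqm hd hK y hy

/-- the square of the class number -/
theorem cnf_sq {m : ℕ} [NeZero m] {X : MulChar (ZMod m) ℤ} (ho : (cc X).Odd)
    (hp : (cc X).IsPrimitive) {q : ℕ} (hq : q.Prime) (h5 : 5 ≤ q) (hqm : q ∣ m)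
    (hd : ∀ (F : Type) [Field F] [NumberField F], finrank ℚ F = 2 → ∀ y : F, y ^ 2 = -(m : F) →
      discr F = -(m : ℤ))
    {K : Type*} [Field K] [NumberField K] (hK : finrank ℚ K = 2) (y : K) (hy : y ^ 2 = -(m : K)) :
    (m : ℤ) * classNumber K = |fm X| := by
  have h1 := cnf_gauss ho hp hq h5 hqm hd hK y hy
  have hm : (0 : ℝ) < m := by exact_mod_cast NeZero.pos m
  have hmc : (m : ℂ) ≠ 0 := by exact_mod_cast hm.ne'
  have hs : ((Real.sqrt m : ℝ) : ℂ) ^ 2 = m := by
    rw [← Complex.ofReal_pow, Real.sq_sqrt hm.le]; simp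
  have h2 := congrArg (fun z => z ^ 2) h1
  simp only [div_pow, mul_pow, Complex.I_sq, gauss_sq ho hp (cc_inv X), hs] at h2
  have h3 : (((m : ℤ) * classNumber K) ^ 2 : ℤ) = (fm X) ^ 2 := by
    have : ((((m : ℤ) * classNumber K) ^ 2 : ℤ) : ℂ) = ((fm X) ^ 2 : ℤ) := by
      push_cast
      field_simp at h2
      push_cast at h2
      linear_combination h2
    exact_mod_cast this
  rw [← abs_of_nonneg (show (0 : ℤ) ≤ (m : ℤ) * classNumber K by positivity)]
  exact sq_eq_sq_iff_abs_eq_abs _ _ |>.1 h3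

/-! ### `p = 3` modulo `4` -/

section three

variable {p : ℕ} [hpf : Fact p.Prime]

lemma qc_odd (h4 : p % 4 = 3) : (cc (quadraticChar (ZMod p))).Odd := by
  unfold DirichletCharacter.Odd
  rw [cc_apply]
  have h2 : ringChar (ZMod p) ≠ 2 := by
    rw [ZMod.ringChar_zmod_n]; omega
  rw [quadraticChar_neg_one h2, ZMod.card, ZMod.χ₄_nat_three_mod_four h4]
  simp

lemma qc_prim (h4 : p % 4 = 3) : (cc (quadraticChar (ZMod p))).IsPrimitive := by
  have h1 : (cc (quadraticChar (ZMod p))) ≠ 1 := odd_ne_one (qc_odd h4)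
  unfold DirichletCharacter.IsPrimitive
  rcases (Nat.dvd_prime hpf.out).1 (DirichletCharacter.conductor_dvd_level
    (cc (quadraticChar (ZMod p)))) with h | h
  · exact absurd (DirichletCharacter.eq_one_iff_conductor_eq_one.2 h) h1
  · exact h

open scoped Classical in
lemma gauss_three (h4 : p % 4 = 3) :
    gaussSum (cc (quadraticChar (ZMod p))) ZMod.stdAddChar = Complex.I * (Real.sqrt p : ℝ) := by
  have hpo : Odd p := Nat.odd_iff.2 (by omega)
  have h := Pool.Agent.H375R3.RZ5.gauss 1 p hpo hpf.out.squarefree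
  have h1 : (Pool.Agent.H306R2.RZ.js 1 p : ℂ) = 1 := by
    unfold Pool.Agent.H306R2.RZ.js
    rw [jacobiSym.one_left]; simp
  rw [h1, one_mul] at h
  have h2 : Pool.Agent.H375R3.RZ5.eps p = Complex.I := by
    unfold Pool.Agent.H375R3.RZ5.eps
    rw [if_neg (by omega)]
  rw [h2] at h
  rw [mul_comm, ← h]
  unfold gaussSum
  have hsum : ∀ f : ZMod p → ℂ, ∑ j : ZMod p, f j = ∑ b ∈ range p, f (b : ZMod p) := by
    intro f
    symm
    refine Finset.sum_bij (fun b _ => (b : ZMod p)) (fun b _ => mem_univ _) ?_ ?_ (fun b _ => rfl)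
    · intro a ha b hb hab
      have := (ZMod.natCast_eq_natCast_iff' a b p).1 hab
      rwa [Nat.mod_eq_of_lt (mem_range.1 ha), Nat.mod_eq_of_lt (mem_range.1 hb)] at this
    · intro j _
      exact ⟨j.val, mem_range.2 (ZMod.val_lt j), ZMod.natCast_zmod_val j⟩
  rw [hsum]
  refine sum_congr rfl fun b hb => ?_
  rw [cc_apply, ZMod.stdAddChar_apply, ZMod.toCircle_apply, ZMod.val_natCast,
    Nat.mod_eq_of_lt (mem_range.1 hb)]
  unfold Pool.Agent.H306R2.RZ.js
  rw [← jacobiSym.legendreSym.to_jacobiSym, legendreSym]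
  push_cast
  congr 2
  ring

lemma sum_zmod_range {A : Type*} [AddCommMonoid A] (f : ZMod p → A) :
    ∑ j : ZMod p, f j = ∑ b ∈ range p, f (b : ZMod p) := by
  symm
  refine Finset.sum_bij (fun b _ => (b : ZMod p)) (fun b _ => mem_univ _) ?_ ?_ (fun b _ => rfl)
  · intro a ha b hb hab
    have := (ZMod.natCast_eq_natCast_iff' a b p).1 hab
    rwa [Nat.mod_eq_of_lt (mem_range.1 ha), Nat.mod_eq_of_lt (mem_range.1 hb)] at this
  · intro j _
    exact ⟨j.val, mem_range.2 (ZMod.val_lt j), ZMod.natCast_zmod_val j⟩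

lemma fm_three : fm (quadraticChar (ZMod p)) = ∑ b ∈ range p, (b : ℤ) * legendreSym p b := by
  unfold fm
  rw [sum_zmod_range]
  refine sum_congr rfl fun b hb => ?_
  rw [ZMod.val_natCast, Nat.mod_eq_of_lt (mem_range.1 hb), legendreSym]
  push_cast
  rfl

/-- **Dirichlet's class number formula**, `p = 3` modulo `4` -/
theorem h_three (h4 : p % 4 = 3) (h5 : 5 ≤ p) {K : Type*} [Field K] [NumberField K]
    (hK : finrank ℚ K = 2) (y : K) (hy : y ^ 2 = -(p : K)) :
    (p : ℤ) * classNumber K = -∑ b ∈ range p, (b : ℤ) * legendreSym p b := by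
  rw [← fm_three]
  have h1 := cnf_gauss (qc_odd h4) (qc_prim h4) hpf.out h5 dvd_rfl
    (fun F _ _ hF y hy => discr_three hF hpf.out h4 y hy) hK y hy
  rw [gauss_three h4] at h1
  have hm : (0 : ℝ) < p := by exact_mod_cast hpf.out.pos
  have hs : ((Real.sqrt p : ℝ) : ℂ) ^ 2 = p := by
    rw [← Complex.ofReal_pow, Real.sq_sqrt hm.le]; simp
  have hs0 : ((Real.sqrt p : ℝ) : ℂ) ≠ 0 := by exact_mod_cast (Real.sqrt_pos.2 hm).ne'
  have hp0 : (p : ℂ) ≠ 0 := by exact_mod_cast hm.ne'
  have : (((p : ℤ) * classNumber K : ℤ) : ℂ) = ((-fm (quadraticChar (ZMod p)) : ℤ) : ℂ) := by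
    rw [div_eq_iff hs0] at h1
    push_cast at h1 ⊢
    rw [h1]
    field_simp
    linear_combination (fm (quadraticChar (ZMod p)) : ℂ) * hs * (Complex.I ^ 2) +
      (fm (quadraticChar (ZMod p)) : ℂ) * (p : ℂ) * Complex.I_sq
  exact_mod_cast this

/-- the class number as a character sum over half of the residues -/
theorem h_three_half (h4 : p % 4 = 3) (h5 : 5 ≤ p) {K : Type*} [Field K] [NumberField K]
    (hK : finrank ℚ K = 2) (y : K) (hy : y ^ 2 = -(p : K)) :
    (2 - legendreSym p 2) * classNumber K = ∑ a ∈ Icc 1 ((p - 1) / 2), legendreSym p a := by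
  have h := h_three h4 h5 hK y hy
  set n := (p - 1) / 2 with hn
  have hpn : p = 2 * n + 1 := by omega
  have hneg : ∀ a : ℤ, legendreSym p (-a) = -legendreSym p a := by
    intro a
    rw [← neg_one_mul, legendreSym.mul, legendreSym.at_neg_one (by omega),
      ZMod.χ₄_nat_three_mod_four h4]
    ring
  have hper : ∀ a : ℤ, legendreSym p ((p : ℤ) + a) = legendreSym p a := by
    intro a
    rw [legendreSym.mod p (p + a), Int.add_emod_left, ← legendreSym.mod]
  have hrefl : ∀ a : ℤ, legendreSym p ((p : ℤ) - a) = -legendreSym p a := by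
    intro a
    rw [sub_eq_add_neg, hper, hneg]
  set U : ℤ := ∑ a ∈ Icc 1 n, (a : ℤ) * legendreSym p a with hU
  set T : ℤ := ∑ a ∈ Icc 1 n, legendreSym p a with hT
  set S : ℤ := ∑ b ∈ range p, (b : ℤ) * legendreSym p b with hS
  -- first splitting
  have hsplit1 : range p = insert 0 (Icc 1 n ∪ (Icc 1 n).image (fun a => p - a)) := by
    ext b
    simp only [mem_range, mem_insert, mem_union, mem_Icc, mem_image]
    constructor
    · intro hb
      by_cases h0 : b = 0
      · exact Or.inl h0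
      · by_cases h1 : b ≤ n
        · exact Or.inr (Or.inl ⟨by omega, h1⟩)
        · exact Or.inr (Or.inr ⟨p - b, ⟨by omega, by omega⟩, by omega⟩)
    · rintro (rfl | ⟨h1, h2⟩ | ⟨a, ⟨h1, h2⟩, rfl⟩) <;> omega
  have hsplit2 : range p = insert 0 ((Icc 1 n).image (fun a => 2 * a) ∪
      (Icc 1 n).image (fun a => p - 2 * a)) := by
    ext b
    simp only [mem_range, mem_insert, mem_union, mem_Icc, mem_image]
    constructor
    · intro hb
      by_cases h0 : b = 0
      · exact Or.inl h0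
      · rcases Nat.even_or_odd' b with ⟨c, hc | hc⟩
        · exact Or.inr (Or.inl ⟨c, ⟨by omega, by omega⟩, by omega⟩)
        · exact Or.inr (Or.inr ⟨n - c, ⟨by omega, by omega⟩, by omega⟩)
    · rintro (rfl | ⟨a, ⟨h1, h2⟩, rfl⟩ | ⟨a, ⟨h1, h2⟩, rfl⟩) <;> omega
  have e1 : S = 2 * U - p * T := by
    rw [hS, hsplit1, sum_insert, sum_union, sum_image]
    · rw [hU, hT, mul_sum, mul_sum, ← sum_sub_distrib]
      simp only [Nat.cast_zero, zero_mul, zero_add]
      rw [← sum_add_distrib]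
      refine sum_congr rfl fun a ha => ?_
      have h1 := mem_Icc.1 ha
      have h2 : ((p - a : ℕ) : ℤ) = (p : ℤ) - a := by
        push_cast [Nat.cast_sub (show a ≤ p by omega)]; ring
      rw [h2, hrefl]
      ring
    · intro a ha b hb hab
      have h1 := mem_Icc.1 ha
      have h2 := mem_Icc.1 hb
      simp only at hab
      omega
    · rw [disjoint_left]
      intro b hb hb2
      obtain ⟨a, ha, rfl⟩ := mem_image.1 hb2
      have h1 := mem_Icc.1 ha
      have h2 := mem_Icc.1 hb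
      omega
    · simp only [mem_union, mem_Icc, mem_image, not_or]
      refine ⟨by omega, ?_⟩
      rintro ⟨a, ⟨h1, h2⟩, h3⟩
      omega
  have e2 : legendreSym p 2 * S = 4 * U - p * T := by
    have h22 : legendreSym p 2 * legendreSym p 2 = 1 := by
      have h20 : ((2 : ℤ) : ZMod p) ≠ 0 := by
        intro h0
        have := (ZMod.intCast_zmod_eq_zero_iff_dvd 2 p).1 h0
        have := Int.le_of_dvd (by norm_num) this
        omega
      rw [← sq]
      exact legendreSym.sq_one p h20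
    rw [hS, hsplit2, sum_insert, sum_union, sum_image, sum_image]
    · rw [hU, hT, mul_sum, mul_sum (Icc 1 n) _ (p : ℤ), ← sum_sub_distrib]
      simp only [Nat.cast_zero, zero_mul, zero_add]
      rw [← sum_add_distrib, mul_sum]
      refine sum_congr rfl fun a ha => ?_
      have h1 := mem_Icc.1 ha
      have h2 : ((p - 2 * a : ℕ) : ℤ) = (p : ℤ) - 2 * a := by
        push_cast [Nat.cast_sub (show 2 * a ≤ p by omega)]; ring
      have h3 : ((2 * a : ℕ) : ℤ) = 2 * (a : ℤ) := by push_cast; ring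
      rw [h2, hrefl, h3, legendreSym.mul]
      linear_combination ((4 * (a : ℤ) - p) * legendreSym p a) * h22
    · intro a ha b hb hab
      have h1 := mem_Icc.1 ha
      have h2 := mem_Icc.1 hb
      simp only at hab
      omega
    · intro a ha b hb hab
      simp only at hab
      omega
    · rw [disjoint_left]
      intro b hb hb2
      obtain ⟨a, ha, rfl⟩ := mem_image.1 hb2
      obtain ⟨c, hc, h3⟩ := mem_image.1 hb
      have h1 := mem_Icc.1 ha
      have h2 := mem_Icc.1 hc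
      omega
    · simp only [mem_union, mem_Icc, mem_image, not_or]
      refine ⟨?_, ?_⟩
      · rintro ⟨a, ⟨h1, h2⟩, h3⟩
        omega
      · rintro ⟨a, ⟨h1, h2⟩, h3⟩
        omega
  have hp0 : (p : ℤ) ≠ 0 := by
    have := hpf.out.pos
    omega
  apply mul_left_cancel₀ hp0
  linear_combination (2 - legendreSym p 2) * h - 2 * e1 + e2

end three

end Pool.Agent.Q267.CN
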