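import Mathlib
import Pool.Agent.Q267.CN.Main

/-! Dirichlet's class number formula for `ℚ(√-p)`, `p = 1` modulo `4`. -/

set_option autoImplicit false

namespace Pool.Agent.Q267.CN

open NumberField Module Finset

section one

variable {p : ℕ} [hpf : Fact p.Prime]

instance : NeZero (4 * p) := ⟨by have := hpf.out.pos; omega⟩

variable (p) in
/-- the character `n ↦ χ₄(n) (n/p)` modulo `4 p` -/
noncomputable def X4 : MulChar (ZMod (4 * p)) ℤ :=
  DirichletCharacter.changeLevel (Dvd.intro p rfl : 4 ∣ 4 * p) ZMod.χ₄ *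
    DirichletCharacter.changeLevel (Dvd.intro_left 4 rfl : p ∣ 4 * p) (quadraticChar (ZMod p))

lemma X4_int (a : ℤ) : X4 p (a : ZMod (4 * p)) = ZMod.χ₄ a * legendreSym p a := by
  by_cases ha : IsCoprime a ((4 * p : ℕ) : ℤ)
  · rw [X4, MulChar.mul_apply, DirichletCharacter.changeLevel_eq_cast_of_dvd' _ _ ha,
      DirichletCharacter.changeLevel_eq_cast_of_dvd' _ _ ha]
    rfl
  · rw [(DirichletCharacter.apply_eq_zero_iff (X4 p) a).2 ha]
    symm
    rw [mul_eq_zero]
    by_contra hcon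
    push Not at hcon
    apply ha
    push_cast
    apply IsCoprime.mul_right
    · by_contra h4
      exact hcon.1 ((DirichletCharacter.apply_eq_zero_iff ZMod.χ₄ a).2 (by exact_mod_cast h4))
    · by_contra h4
      exact hcon.2 ((DirichletCharacter.apply_eq_zero_iff (quadraticChar (ZMod p)) a).2 h4)

lemma X4_odd (h4 : p % 4 = 1) : (cc (X4 p)).Odd := by
  unfold DirichletCharacter.Odd
  rw [cc_apply]
  have h := X4_int (p := p) (-1)
  have e : ((-1 : ℤ) : ZMod (4 * p)) = -1 := by simp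
  rw [e] at h
  rw [h, legendreSym.at_neg_one (by omega), ZMod.χ₄_nat_one_mod_four h4]
  have : ZMod.χ₄ (-1 : ℤ) = -1 := by decide
  rw [this]
  simp

/-- if a character factors through `d` then it is trivial on `1 + dℤ` -/
lemma factor_one {m d : ℕ} {χ : DirichletCharacter ℂ m} (h : χ.FactorsThrough d) (a : ℤ)
    (ha : IsCoprime a m) (h1 : (d : ℤ) ∣ a - 1) : χ a = 1 := by
  obtain ⟨hd, χ₀, rfl⟩ := h
  rw [DirichletCharacter.changeLevel_eq_cast_of_dvd' _ _ ha]
  have : (a : ZMod d) = 1 := by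
    have := (ZMod.intCast_zmod_eq_zero_iff_dvd (a - 1) d).2 h1
    push_cast at this
    exact sub_eq_zero.1 this
  rw [this, map_one]

lemma X4_prim (h4 : p % 4 = 1) : (cc (X4 p)).IsPrimitive := by
  have hp := hpf.out
  have hf := DirichletCharacter.factorsThrough_conductor (cc (X4 p))
  have hdv := DirichletCharacter.conductor_dvd_level (cc (X4 p))
  set c := (cc (X4 p)).conductor with hc
  rw [DirichletCharacter.isPrimitive_def, ← hc]
  by_contra hne
  by_cases hpc : p ∣ c
  · -- then `c ∣ 2 p`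
    have h2 : (c : ℤ) ∣ 2 * p := by
      obtain ⟨e, he⟩ := hpc
      have he4 : e ∣ 4 := by
        rw [he, mul_comm p e] at hdv
        exact Nat.dvd_of_mul_dvd_mul_right hp.pos hdv
      have he3 : e ≤ 4 := Nat.le_of_dvd (by norm_num) he4
      have he5 : e ≠ 4 := by
        rintro rfl
        exact hne (by rw [he, mul_comm])
      have he6 : e ∣ 2 := by
        interval_cases e <;> omega
      rw [he]
      push_cast
      rw [mul_comm (p : ℤ)]
      exact mul_dvd_mul (by exact_mod_cast he6) dvd_rfl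
    have hco : IsCoprime (1 + 2 * p : ℤ) ((4 * p : ℕ) : ℤ) := by
      push_cast
      apply IsCoprime.mul_right
      · have : IsCoprime (1 + 2 * p : ℤ) 2 := ⟨1, -p, by ring⟩
        have := this.mul_right this
        norm_num at this
        exact this
      · exact ⟨1, -2, by ring⟩
    have h1 := factor_one hf (1 + 2 * p) hco (by ring_nf; rw [mul_comm]; exact h2)
    rw [cc_apply, X4_int] at h1
    have e1 : ZMod.χ₄ ((1 + 2 * p : ℤ) : ZMod 4) = -1 := ZMod.χ₄_int_three_mod_four (by omega)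
    have e2 : legendreSym p (1 + 2 * p) = 1 := by
      rw [legendreSym.mod, Int.add_mul_emod_self_right, ← legendreSym.mod, legendreSym.at_one]
    rw [e1, e2] at h1
    norm_num at h1
  · have hcop : Nat.Coprime c p := (Nat.coprime_comm.1 ((Nat.Prime.coprime_iff_not_dvd hp).2 hpc))
    have hc4 : (c : ℤ) ∣ 4 := by exact_mod_cast hcop.dvd_of_dvd_mul_right hdv
    obtain ⟨g, hg⟩ : ∃ g : ZMod p, quadraticChar (ZMod p) g = -1 :=
      quadraticChar_exists_neg_one (by rw [ZMod.ringChar_zmod_n]; omega)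
    have hcop4 : Nat.Coprime 4 p := by
      have : Nat.Coprime 2 p := by
        rw [Nat.coprime_primes Nat.prime_two hp]; omega
      exact this.mul_left this
    obtain ⟨a, ha1, ha2⟩ := Nat.chineseRemainder hcop4 1 g.val
    have hap : ((a : ℤ) : ZMod p) = g := by
      have := (ZMod.natCast_eq_natCast_iff a g.val p).2 ha2
      rw [ZMod.natCast_zmod_val] at this
      exact_mod_cast this
    have hco : IsCoprime (a : ℤ) ((4 * p : ℕ) : ℤ) := by
      rw [Nat.isCoprime_iff_coprime]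
      apply Nat.Coprime.mul_right
      · have h41 : a % 4 = 1 := ha1
        rw [Nat.coprime_comm, Nat.Coprime, Nat.gcd_rec, h41]
        norm_num
      · rw [Nat.coprime_comm, Nat.Prime.coprime_iff_not_dvd hp]
        intro h0
        have : ((a : ℤ) : ZMod p) = 0 := by
          have := (ZMod.natCast_eq_zero_iff a p).2 h0
          exact_mod_cast this
        rw [hap] at this
        rw [this] at hg
        simp at hg
    have ha1' : a % 4 = 1 := ha1
    have h1 := factor_one hf (a : ℤ) hco (hc4.trans (by omega))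
    rw [cc_apply, X4_int] at h1
    have e1 : ZMod.χ₄ (((a : ℤ)) : ZMod 4) = 1 := ZMod.χ₄_int_one_mod_four (by omega)
    have e2 : legendreSym p a = -1 := by
      rw [legendreSym, hap, hg]
    rw [e1, e2] at h1
    norm_num at h1

lemma sum_zmod_range' {m : ℕ} [NeZero m] {A : Type*} [AddCommMonoid A] (f : ZMod m → A) :
    ∑ j : ZMod m, f j = ∑ b ∈ range m, f (b : ZMod m) := by
  symm
  refine Finset.sum_bij (fun b _ => (b : ZMod m)) (fun b _ => mem_univ _) ?_ ?_ (fun b _ => rfl)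
  · intro a ha b hb hab
    have := (ZMod.natCast_eq_natCast_iff' a b m).1 hab
    rwa [Nat.mod_eq_of_lt (mem_range.1 ha), Nat.mod_eq_of_lt (mem_range.1 hb)] at this
  · intro j _
    exact ⟨j.val, mem_range.2 (ZMod.val_lt j), ZMod.natCast_zmod_val j⟩

variable (p) in
/-- the values of the character `X4` at integers -/
noncomputable def ff (a : ℤ) : ℤ := ZMod.χ₄ a * legendreSym p a

lemma ff_two (h4 : p % 4 = 1) (a : ℤ) : ff p (2 * p + a) = -ff p a := by
  unfold ff
  have e1 : ZMod.χ₄ ((2 * p + a : ℤ) : ZMod 4) = -ZMod.χ₄ (a : ZMod 4) := by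
    rw [ZMod.χ₄_int_eq_if_mod_four, ZMod.χ₄_int_eq_if_mod_four]
    have h1 : (p : ℤ) % 4 = 1 := by omega
    split_ifs <;> first | rfl | (exfalso; omega)
  have e2 : legendreSym p (2 * p + a) = legendreSym p a := by
    rw [legendreSym.mod, Int.mul_add_emod_self_right, ← legendreSym.mod]
  rw [e1, e2]
  ring

lemma leg_neg (h4 : p % 4 = 1) (a : ℤ) : legendreSym p (-a) = legendreSym p a := by
  rw [← neg_one_mul, legendreSym.mul, legendreSym.at_neg_one (by omega),
    ZMod.χ₄_nat_one_mod_four h4]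
  ring

lemma leg_sub (h4 : p % 4 = 1) (a : ℤ) : legendreSym p (p - a) = legendreSym p a := by
  rw [sub_eq_add_neg, legendreSym.mod, Int.add_emod_left, ← legendreSym.mod, leg_neg h4]

lemma ff_sub (h4 : p % 4 = 1) (a : ℤ) : ff p (2 * p - a) = ff p a := by
  unfold ff
  have e1 : ZMod.χ₄ ((2 * p - a : ℤ) : ZMod 4) = ZMod.χ₄ (a : ZMod 4) := by
    rw [ZMod.χ₄_int_eq_if_mod_four, ZMod.χ₄_int_eq_if_mod_four]
    have h1 : (p : ℤ) % 4 = 1 := by omega
    split_ifs <;> first | rfl | (exfalso; omega)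
  have e2 : legendreSym p (2 * p - a) = legendreSym p a := by
    rw [show (2 * p - a : ℤ) = p + (p - a) by ring, legendreSym.mod, Int.add_emod_left,
      ← legendreSym.mod, leg_sub h4]
  rw [e1, e2]

lemma fm_one (h4 : p % 4 = 1) : fm (X4 p) = -(4 * p * ∑ b ∈ range p, ff p b) := by
  unfold fm
  rw [sum_zmod_range']
  have h1 : ∀ b ∈ range (4 * p), (((b : ZMod (4 * p)).val : ℕ) : ℤ) * X4 p (b : ZMod (4 * p)) =
      (b : ℤ) * ff p b := by
    intro b hb
    rw [ZMod.val_natCast, Nat.mod_eq_of_lt (mem_range.1 hb)]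
    have := X4_int (p := p) (b : ℤ)
    push_cast at this
    rw [this]
    unfold ff
    push_cast
    rfl
  rw [sum_congr rfl h1, show 4 * p = 2 * p + 2 * p by ring, sum_range_add]
  have h2 : ∀ b ∈ range (2 * p), ((2 * p + b : ℕ) : ℤ) * ff p ((2 * p + b : ℕ) : ℤ) =
      -((b : ℤ) * ff p b) - 2 * p * ff p b := by
    intro b _
    push_cast
    rw [ff_two h4]
    ring
  rw [sum_congr rfl h2, sum_sub_distrib, sum_neg_distrib, ← mul_sum]
  have h3 : ∑ b ∈ range (2 * p), ff p b = 2 * ∑ b ∈ range p, ff p b := by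
    rw [show 2 * p = p + p by ring, sum_range_add]
    have h4' : ∑ b ∈ range p, ff p ((p + b : ℕ) : ℤ) = ∑ b ∈ range p, ff p ((b + 1 : ℕ) : ℤ) := by
      rw [← sum_range_reflect]
      refine sum_congr rfl fun b hb => ?_
      have hb' := mem_range.1 hb
      rw [← ff_sub h4 ((b + 1 : ℕ) : ℤ)]
      congr 1
      push_cast [Nat.cast_sub (show b ≤ p - 1 by omega), Nat.cast_sub (show 1 ≤ p by omega)]
      ring
    have h5 : ∑ b ∈ range p, ff p ((b + 1 : ℕ) : ℤ) = ∑ b ∈ range p, ff p b := by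
      have e1 := sum_range_succ' (fun b : ℕ => ff p (b : ℤ)) p
      have e2 := sum_range_succ (fun b : ℕ => ff p (b : ℤ)) p
      have e3 : ff p ((0 : ℕ) : ℤ) = 0 := by
        unfold ff
        have : ZMod.χ₄ (((0 : ℕ) : ℤ) : ZMod 4) = 0 := by decide
        rw [this, zero_mul]
      have e4 : ff p ((p : ℕ) : ℤ) = 0 := by
        unfold ff
        have : legendreSym p (p : ℤ) = 0 := by
          rw [legendreSym.eq_zero_iff]
          simp
        rw [this, mul_zero]
      rw [e3] at e1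
      rw [e4] at e2
      linarith
    rw [h4', h5]
    ring
  rw [h3]
  ring

/-- **Dirichlet's class number formula**, `p = 1` modulo `4` -/
theorem h_one (h4 : p % 4 = 1) {K : Type*} [Field K] [NumberField K]
    (hK : finrank ℚ K = 2) (y : K) (hy : y ^ 2 = -(p : K)) :
    (classNumber K : ℤ) = |∑ b ∈ range p, ff p b| := by
  have hp := hpf.out
  have h5 : 5 ≤ p := by
    have := hp.two_le
    omega
  have h := cnf_sq (m := 4 * p) (X4_odd h4) (X4_prim h4) hp h5 (Dvd.intro_left 4 rfl)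
    (fun F _ _ hF y hy => by
      rw [discr_one hF hp h4 (y / 2) (by
        rw [div_pow, hy]
        push_cast
        ring)]
      push_cast
      ring) hK (2 * y) (by
        rw [mul_pow, hy]
        push_cast
        ring)
  rw [fm_one h4, abs_neg, abs_mul] at h
  have h0 : |(4 * p : ℤ)| = 4 * p := abs_of_nonneg (by positivity)
  rw [h0] at h
  push_cast at h
  have hp0 : (4 * p : ℤ) ≠ 0 := by
    have := hp.pos
    omega
  exact mul_left_cancel₀ hp0 h

/-! ### the class number modulo `4` -/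

lemma sign_sum (n : ℕ) (e : ℕ → ℤ) (he : ∀ i < n, e i = 1 ∨ e i = -1) :
    (∏ i ∈ range n, e i = 1 ∨ ∏ i ∈ range n, e i = -1) ∧
      (4 : ℤ) ∣ ∑ i ∈ range n, e i - n + 1 - ∏ i ∈ range n, e i := by
  induction n with
  | zero => simp
  | succ n ih =>
    obtain ⟨h1, h2⟩ := ih fun i hi => he i (by omega)
    have h3 := he n (by omega)
    rw [sum_range_succ, prod_range_succ]
    set P := ∏ i ∈ range n, e i
    set S := ∑ i ∈ range n, e i
    refine ⟨?_, ?_⟩
    · rcases h1 with h1 | h1 <;> rcases h3 with h3 | h3 <;> rw [h1, h3] <;> norm_num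
    · push_cast
      rcases h1 with h1 | h1 <;> rcases h3 with h3 | h3 <;>
        (rw [h1] at h2; rw [h1, h3]; omega)

lemma leg_pm (a : ℤ) (ha : 0 < a) (hap : a < p) : legendreSym p a = 1 ∨ legendreSym p a = -1 := by
  apply legendreSym.eq_one_or_neg_one
  intro h
  have := (ZMod.intCast_zmod_eq_zero_iff_dvd a p).1 h
  have := Int.le_of_dvd ha this
  omega

lemma leg_half_sum (h4 : p % 4 = 1) {n : ℕ} (hn : p = 2 * n + 1) :
    ∑ j ∈ range n, legendreSym p ((j + 1 : ℕ) : ℤ) = 0 := by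
  have h0 : ∑ j : ZMod p, quadraticChar (ZMod p) j = 0 :=
    quadraticChar_sum_zero (by rw [ZMod.ringChar_zmod_n]; omega)
  rw [sum_zmod_range] at h0
  have h1 : ∑ b ∈ range p, legendreSym p (b : ℤ) = 0 := by
    rw [← h0]
    refine sum_congr rfl fun b _ => ?_
    rw [legendreSym]
    push_cast
    rfl
  have h2 : range p = range (2 * n + 1) := by rw [← hn]
  rw [h2, sum_range_succ'] at h1
  have e0 : legendreSym p ((0 : ℕ) : ℤ) = 0 := by simp
  rw [e0, add_zero, two_mul, sum_range_add] at h1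
  have h3 : ∑ x ∈ range n, legendreSym p ((n + x + 1 : ℕ) : ℤ) =
      ∑ j ∈ range n, legendreSym p ((j + 1 : ℕ) : ℤ) := by
    rw [← sum_range_reflect]
    refine sum_congr rfl fun b hb => ?_
    have hb' := mem_range.1 hb
    rw [← leg_sub h4]
    congr 1
    push_cast
    omega
  rw [h3] at h1
  linarith

lemma half_prod (h4 : p % 4 = 1) {k : ℕ} (hn : p = 4 * k + 1) :
    ∏ j ∈ range (2 * k), legendreSym p ((j + 1 : ℕ) : ℤ) = (-1) ^ k := by
  obtain ⟨h1, h2⟩ := sign_sum (2 * k) (fun j => legendreSym p ((j + 1 : ℕ) : ℤ))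
    (fun i hi => leg_pm _ (by positivity) (by push_cast; omega))
  rw [leg_half_sum h4 (by omega)] at h2
  rcases Nat.even_or_odd k with hk | hk
  · rw [hk.neg_one_pow]
    rcases h1 with h1 | h1
    · exact h1
    · rw [h1] at h2
      obtain ⟨l, hl⟩ := hk
      omega
  · rw [hk.neg_one_pow]
    rcases h1 with h1 | h1
    · rw [h1] at h2
      obtain ⟨l, hl⟩ := hk
      omega
    · exact h1

lemma pair_sum {A : Type*} [AddCommMonoid A] (f : ℕ → A) (n : ℕ) :
    ∑ b ∈ range (2 * n), f b = ∑ i ∈ range n, (f (2 * i) + f (2 * i + 1)) := by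
  induction n with
  | zero => simp
  | succ n ih => rw [show 2 * (n + 1) = 2 * n + 1 + 1 by ring, sum_range_succ, sum_range_succ, ih,
      sum_range_succ, add_assoc]

lemma pair_prod {A : Type*} [CommMonoid A] (f : ℕ → A) (n : ℕ) :
    ∏ b ∈ range (2 * n), f b = ∏ i ∈ range n, (f (2 * i) * f (2 * i + 1)) := by
  induction n with
  | zero => simp
  | succ n ih => rw [show 2 * (n + 1) = 2 * n + 1 + 1 by ring, prod_range_succ, prod_range_succ, ih,
      prod_range_succ, mul_assoc]

lemma odd_prod (h4 : p % 4 = 1) {k : ℕ} (hn : p = 4 * k + 1) :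
    ∏ i ∈ range (2 * k), legendreSym p ((2 * i + 1 : ℕ) : ℤ) = (-1) ^ k := by
  have e1 : ∏ i ∈ range (2 * k), legendreSym p ((2 * i + 1 : ℕ) : ℤ) =
      (∏ i ∈ range k, legendreSym p ((2 * i + 1 : ℕ) : ℤ)) *
        ∏ i ∈ range k, legendreSym p ((2 * (k + i) + 1 : ℕ) : ℤ) := by
    rw [two_mul, prod_range_add]
  rw [← half_prod h4 hn, pair_prod (fun j => legendreSym p ((j + 1 : ℕ) : ℤ)), e1, prod_mul_distrib]
  congr 1
  rw [← prod_range_reflect]
  refine prod_congr rfl fun i hi => ?_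
  have hi' := mem_range.1 hi
  rw [← leg_sub h4]
  congr 1
  push_cast
  omega

lemma chi_prod (k : ℕ) : ∏ i ∈ range (2 * k), ZMod.χ₄ (((2 * i + 1 : ℕ) : ℤ) : ZMod 4) =
    (-1) ^ k := by
  rw [pair_prod]
  have : ∀ i ∈ range k, (ZMod.χ₄ (((2 * (2 * i) + 1 : ℕ) : ℤ) : ZMod 4) *
      ZMod.χ₄ (((2 * (2 * i + 1) + 1 : ℕ) : ℤ) : ZMod 4)) = -1 := by
    intro i _
    rw [ZMod.χ₄_int_one_mod_four (by omega), ZMod.χ₄_int_three_mod_four (by omega)]
    norm_num
  rw [prod_congr rfl this]
  simp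

lemma T_mod (h4 : p % 4 = 1) : (4 : ℤ) ∣ ∑ b ∈ range p, ff p b - ((p - 1) / 2 : ℕ) := by
  obtain ⟨k, hk⟩ : ∃ k, p = 4 * k + 1 := ⟨p / 4, by omega⟩
  have h1 : ∑ b ∈ range p, ff p b = ∑ i ∈ range (2 * k), ff p ((2 * i + 1 : ℕ) : ℤ) := by
    have e : range p = range (2 * (2 * k) + 1) := by rw [show 2 * (2 * k) + 1 = p by omega]
    rw [e, sum_range_succ, pair_sum]
    have h0 : ∀ i : ℕ, ff p ((2 * i : ℕ) : ℤ) = 0 := by
      intro i
      unfold ff
      rw [ZMod.χ₄_int_eq_if_mod_four, if_pos (by omega), zero_mul]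
    rw [h0, add_zero]
    refine sum_congr rfl fun i _ => ?_
    rw [h0, zero_add]
  obtain ⟨_, h2⟩ := sign_sum (2 * k) (fun i => ff p ((2 * i + 1 : ℕ) : ℤ)) (by
    intro i hi
    have h1 : ZMod.χ₄ (((2 * i + 1 : ℕ) : ℤ) : ZMod 4) = 1 ∨
        ZMod.χ₄ (((2 * i + 1 : ℕ) : ℤ) : ZMod 4) = -1 := by
      rw [ZMod.χ₄_int_eq_if_mod_four, if_neg (by omega)]
      split_ifs <;> simp
    have h2 := leg_pm (p := p) ((2 * i + 1 : ℕ) : ℤ) (by positivity) (by push_cast; omega)
    unfold ff
    rcases h1 with h1 | h1 <;> rcases h2 with h2 | h2 <;> rw [h1, h2] <;> norm_num)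
  have h3 : ∏ i ∈ range (2 * k), ff p ((2 * i + 1 : ℕ) : ℤ) = 1 := by
    unfold ff
    rw [prod_mul_distrib, odd_prod h4 hk, chi_prod, ← mul_pow]
    norm_num
  rw [h3] at h2
  rw [h1]
  have : (p - 1) / 2 = 2 * k := by omega
  rw [this]
  convert h2 using 1
  ring

/-- the class number of `ℚ(√-p)` modulo `4`, for `p = 1` modulo `4` -/
theorem h_one_mod (h4 : p % 4 = 1) {K : Type*} [Field K] [NumberField K]
    (hK : finrank ℚ K = 2) (y : K) (hy : y ^ 2 = -(p : K)) :
    classNumber K % 4 = (p - 1) / 2 % 4 := by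
  have h1 := h_one h4 hK y hy
  have h2 := T_mod h4
  set T := ∑ b ∈ range p, ff p b
  rcases abs_choice T with h3 | h3 <;> rw [h3] at h1 <;> omega

end one

end Pool.Agent.Q267.CN
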