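import Mathlib
import Pool.Agent.Q267.CN.One

/-! The phase and the sign of `∏_{k ≤ (p-1)/2} (e^{iα} - e^{2π i k²/p})`. -/

set_option autoImplicit false

namespace Pool.Agent.Q267.CN

open NumberField Module Finset

section trig

variable (p : ℕ) [hpf : Fact p.Prime]

/-- the quadratic residues between `0` and `p` -/
def QR : Finset ℕ := (range p).filter (fun r => legendreSym p r = 1)

variable {p}

lemma mem_QR {r : ℕ} : r ∈ QR p ↔ r < p ∧ legendreSym p r = 1 := by
  unfold QR
  rw [mem_filter, mem_range]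

lemma pos_of_mem_QR {r : ℕ} (h : r ∈ QR p) : 0 < r := by
  rw [mem_QR] at h
  rcases Nat.eq_zero_or_pos r with h0 | h0
  · rw [h0] at h
    simp at h
  · exact h0

/-- reindexing the squares -/
lemma prod_squares (hp2 : p ≠ 2) (f : ZMod p → ℂ) :
    ∏ k ∈ Icc 1 ((p - 1) / 2), f ((k : ZMod p) ^ 2) = ∏ r ∈ QR p, f (r : ZMod p) := by
  have hp := hpf.out
  have hodd : p % 2 = 1 := by
    rcases hp.eq_two_or_odd with h | h
    · exact absurd h hp2
    · exact h
  refine prod_bij (fun k _ => ((k : ZMod p) ^ 2).val) ?_ ?_ ?_ ?_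
  · intro k hk
    have hk' := mem_Icc.1 hk
    rw [mem_QR]
    refine ⟨ZMod.val_lt _, ?_⟩
    have hk0 : (k : ZMod p) ≠ 0 := by
      intro h
      have := Nat.le_of_dvd (by omega) ((ZMod.natCast_eq_zero_iff k p).1 h)
      omega
    rw [legendreSym.eq_one_iff]
    · push_cast
      rw [ZMod.natCast_zmod_val]
      exact ⟨k, sq _⟩
    · push_cast
      rw [ZMod.natCast_zmod_val]
      exact pow_ne_zero 2 hk0
  · intro a ha b hb hab
    have ha' := mem_Icc.1 ha
    have hb' := mem_Icc.1 hb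
    have h1 : (a : ZMod p) ^ 2 = (b : ZMod p) ^ 2 := ZMod.val_injective p hab
    have h2 : ((a : ZMod p) - b) * ((a : ZMod p) + b) = 0 := by
      linear_combination h1
    rcases mul_eq_zero.1 h2 with h | h
    · have h3 := (ZMod.natCast_eq_natCast_iff' a b p).1 (sub_eq_zero.1 h)
      rwa [Nat.mod_eq_of_lt (by omega), Nat.mod_eq_of_lt (by omega)] at h3
    · exfalso
      have h3 : ((a + b : ℕ) : ZMod p) = 0 := by push_cast; exact h
      have := Nat.le_of_dvd (by omega) ((ZMod.natCast_eq_zero_iff (a + b) p).1 h3)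
      omega
  · intro r hr
    have hr0 := pos_of_mem_QR hr
    rw [mem_QR] at hr
    have h1 : ((r : ℤ) : ZMod p) ≠ 0 := by
      intro h
      have := (ZMod.intCast_zmod_eq_zero_iff_dvd r p).1 h
      have := Int.le_of_dvd (by omega) this
      omega
    obtain ⟨z, hz⟩ := (legendreSym.eq_one_iff p h1).1 hr.2
    have hz' : (r : ZMod p) = z ^ 2 := by
      rw [sq, ← hz]
      push_cast
      rfl
    have hz0 : z.val ≠ 0 := by
      intro h
      rw [ZMod.val_eq_zero] at h
      rw [h] at hz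
      apply h1
      rw [hz]
      ring
    have hzlt := ZMod.val_lt z
    have hrv : ((r : ZMod p)).val = r := by
      rw [ZMod.val_natCast, Nat.mod_eq_of_lt hr.1]
    by_cases hc : z.val ≤ (p - 1) / 2
    · refine ⟨z.val, mem_Icc.2 ⟨by omega, hc⟩, ?_⟩
      rw [ZMod.natCast_zmod_val, ← hz', hrv]
    · refine ⟨p - z.val, mem_Icc.2 ⟨by omega, by omega⟩, ?_⟩
      have h3 : ((p - z.val : ℕ) : ZMod p) = -z := by
        rw [Nat.cast_sub hzlt.le, ZMod.natCast_zmod_val]
        simp
      rw [h3, neg_sq, ← hz', hrv]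
  · intro k hk
    rw [ZMod.natCast_zmod_val]

lemma card_QR (hp2 : p ≠ 2) : (QR p).card = (p - 1) / 2 := by
  have h := prod_squares (p := p) hp2 (fun _ => (2 : ℂ))
  rw [prod_const, prod_const, Nat.card_Icc] at h
  have h2 : (2 : ℕ) ^ ((p - 1) / 2 + 1 - 1) = 2 ^ (QR p).card := by exact_mod_cast h
  have := Nat.pow_right_injective (le_refl 2) h2
  omega

lemma exp_sub (α β : ℝ) : Complex.exp (α * Complex.I) - Complex.exp (β * Complex.I) =
    2 * Complex.I * Real.sin ((α - β) / 2) * Complex.exp ((α + β) / 2 * Complex.I) := by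
  have h1 : Complex.exp (α * Complex.I) = Complex.exp ((α + β) / 2 * Complex.I) *
      Complex.exp ((α - β) / 2 * Complex.I) := by
    rw [← Complex.exp_add]; congr 1; ring
  have h2 : Complex.exp (β * Complex.I) = Complex.exp ((α + β) / 2 * Complex.I) *
      Complex.exp (-((α - β) / 2) * Complex.I) := by
    rw [← Complex.exp_add]; congr 1; ring
  rw [h1, h2, ← mul_sub]
  push_cast
  rw [Complex.sin]
  have : Complex.exp ((α - β) / 2 * Complex.I) - Complex.exp (-((α - β) / 2) * Complex.I) =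
      2 * Complex.I * ((Complex.exp (-((α - β) / 2) * Complex.I) -
        Complex.exp ((α - β) / 2 * Complex.I)) * Complex.I / 2) := by
    linear_combination (-(Complex.exp (-((α - β) / 2) * Complex.I) -
        Complex.exp ((α - β) / 2 * Complex.I))) * Complex.I_sq
  rw [this]
  ring

lemma prod_sign {ι : Type*} [DecidableEq ι] (s : Finset ι) (f : ι → ℝ) (hf : ∀ i ∈ s, f i ≠ 0) :
    ∃ P : ℝ, 0 < P ∧ ∏ i ∈ s, f i = (-1) ^ (s.filter (fun i => f i < 0)).card * P := by
  refine ⟨∏ i ∈ s, |f i|, prod_pos fun i hi => abs_pos.2 (hf i hi), ?_⟩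
  rw [← prod_const, prod_filter, ← prod_mul_distrib]
  refine prod_congr rfl fun i hi => ?_
  split_ifs with h
  · rw [abs_of_neg h]; ring
  · rw [abs_of_nonneg (not_lt.1 h)]; ring

/-- the value of the product at a point of the unit circle -/
lemma S_value (hp2 : p ≠ 2) (α : ℝ)
    (hne : ∀ r ∈ QR p, Real.sin ((α - 2 * Real.pi * r / p) / 2) ≠ 0) :
    ∃ P : ℝ, 0 < P ∧ ∏ k ∈ Icc 1 ((p - 1) / 2), (Complex.exp (α * Complex.I) -
      Complex.exp (2 * Real.pi * Complex.I * (k : ℂ) ^ 2 / p)) =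
      (-1) ^ ((QR p).filter (fun r : ℕ => Real.sin ((α - 2 * Real.pi * r / p) / 2) < 0)).card * P *
        Complex.exp (((((p - 1) / 2 : ℕ) : ℂ) * (Real.pi / 2 + α / 2) +
          Real.pi * ((∑ r ∈ QR p, r : ℕ) : ℂ) / p) * Complex.I) := by
  obtain ⟨P, hP, hPe⟩ := prod_sign (QR p)
    (fun r : ℕ => Real.sin ((α - 2 * Real.pi * r / p) / 2)) hne
  refine ⟨2 ^ ((p - 1) / 2) * P, by positivity, ?_⟩
  have hp0 : (p : ℂ) ≠ 0 := by exact_mod_cast hpf.out.ne_zero
  have h1 : ∀ k ∈ Icc 1 ((p - 1) / 2), (Complex.exp (α * Complex.I) -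
      Complex.exp (2 * Real.pi * Complex.I * (k : ℂ) ^ 2 / p)) =
      (fun z : ZMod p => Complex.exp (α * Complex.I) - ZMod.stdAddChar z) ((k : ZMod p) ^ 2) := by
    intro k _
    beta_reduce
    congr 1
    have : ((k : ZMod p) ^ 2) = ((k ^ 2 : ℕ) : ZMod p) := by push_cast; rfl
    rw [this]
    have h := ZMod.stdAddChar_coe (N := p) ((k ^ 2 : ℕ) : ℤ)
    push_cast at h ⊢
    rw [h]
  rw [prod_congr rfl h1,
    prod_squares hp2 (fun z : ZMod p => Complex.exp (α * Complex.I) - ZMod.stdAddChar z)]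
  have h2 : ∀ r ∈ QR p, (Complex.exp (α * Complex.I) - ZMod.stdAddChar ((r : ZMod p))) =
      (2 * Complex.I) * ((Real.sin ((α - 2 * Real.pi * r / p) / 2) : ℝ) : ℂ) *
        Complex.exp ((α / 2 + Real.pi * r / p) * Complex.I) := by
    intro r _
    have h := ZMod.stdAddChar_coe (N := p) ((r : ℕ) : ℤ)
    have e1 : (((r : ℕ) : ℤ) : ZMod p) = (r : ZMod p) := by push_cast; rfl
    rw [e1] at h
    rw [h]
    have e2 : (2 * Real.pi * Complex.I * ((r : ℤ) : ℂ) / p) =
        ((2 * Real.pi * r / p : ℝ) : ℂ) * Complex.I := by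
      push_cast
      ring
    rw [e2, exp_sub]
    congr 2
    push_cast
    ring
  rw [prod_congr rfl h2, prod_mul_distrib, prod_mul_distrib, prod_const, card_QR hp2,
    ← Complex.exp_sum, ← Complex.ofReal_prod, hPe, ← sum_mul, sum_add_distrib, sum_const,
    card_QR hp2, mul_pow]
  have h3 : Complex.I ^ ((p - 1) / 2) =
      Complex.exp ((((p - 1) / 2 : ℕ) : ℂ) * (Real.pi / 2) * Complex.I) := by
    rw [mul_assoc, Complex.exp_nat_mul, Complex.exp_pi_div_two_mul_I]
  rw [h3, nsmul_eq_mul]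
  have h4 : ∑ r ∈ QR p, (Real.pi * (r : ℂ) / p) = Real.pi * ((∑ r ∈ QR p, r : ℕ) : ℂ) / p := by
    push_cast
    rw [mul_sum, sum_div]
  rw [h4]
  have h5 : Complex.exp (((((p - 1) / 2 : ℕ) : ℂ) * (Real.pi / 2 + α / 2) +
          Real.pi * ((∑ r ∈ QR p, r : ℕ) : ℂ) / p) * Complex.I) =
      Complex.exp ((((p - 1) / 2 : ℕ) : ℂ) * (Real.pi / 2) * Complex.I) *
      Complex.exp (((((p - 1) / 2 : ℕ) : ℂ) * (α / 2) +
        Real.pi * ((∑ r ∈ QR p, r : ℕ) : ℂ) / p) * Complex.I) := by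
    rw [← Complex.exp_add]
    congr 1
    ring
  rw [h5]
  push_cast
  ring

lemma two_sum : 2 * ((∑ r ∈ QR p, r : ℕ) : ℤ) = ∑ b ∈ range p, (b : ℤ) +
    ∑ b ∈ range p, (b : ℤ) * legendreSym p b := by
  unfold QR
  rw [sum_filter]
  push_cast
  rw [mul_sum, ← sum_add_distrib]
  refine sum_congr rfl fun b hb => ?_
  rcases Nat.eq_zero_or_pos b with h0 | h0
  · rw [h0]; simp
  · have hb' := mem_range.1 hb
    rcases leg_pm (p := p) (b : ℤ) (by omega) (by omega) with h | h
    · rw [h]; simp; ring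
    · rw [h]; simp

lemma sum_range_half (hp2 : p ≠ 2) : ∑ b ∈ range p, (b : ℤ) = p * ((p - 1) / 2 : ℕ) := by
  have hp := hpf.out
  have hodd : p % 2 = 1 := by
    rcases hp.eq_two_or_odd with h | h
    · exact absurd h hp2
    · exact h
  have h := sum_range_id_mul_two p
  obtain ⟨n, hn⟩ : ∃ n, p = 2 * n + 1 := ⟨p / 2, by omega⟩
  have h1 : (p - 1) / 2 = n := by omega
  have h2 : p - 1 = 2 * n := by omega
  rw [h2] at h
  rw [h1]
  have h3 : ((∑ i ∈ range p, i : ℕ) : ℤ) * 2 = p * (2 * n) := by exact_mod_cast h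
  push_cast at h3
  linarith

lemma leg_moment_one (h4 : p % 4 = 1) : ∑ b ∈ range p, (b : ℤ) * legendreSym p b = 0 := by
  have hp := hpf.out
  have h0 : ∑ j : ZMod p, quadraticChar (ZMod p) j = 0 :=
    quadraticChar_sum_zero (by rw [ZMod.ringChar_zmod_n]; omega)
  rw [sum_zmod_range] at h0
  have h1 : ∑ b ∈ range p, legendreSym p (b : ℤ) = 0 := by
    rw [← h0]
    refine sum_congr rfl fun b _ => ?_
    rw [legendreSym]
    push_cast
    rfl
  obtain ⟨q, hq⟩ : ∃ q, p = q + 1 := ⟨p - 1, by have := hp.pos; omega⟩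
  have hr : range p = range (q + 1) := by rw [← hq]
  rw [hr, sum_range_succ'] at h1 ⊢
  have e0 : legendreSym p ((0 : ℕ) : ℤ) = 0 := by simp
  rw [e0] at h1 ⊢
  rw [add_zero] at h1
  rw [mul_zero, add_zero]
  have h2 : ∑ k ∈ range q, ((k + 1 : ℕ) : ℤ) * legendreSym p ((k + 1 : ℕ) : ℤ) =
      ∑ k ∈ range q, ((p : ℤ) - (k + 1 : ℕ)) * legendreSym p ((k + 1 : ℕ) : ℤ) := by
    rw [← sum_range_reflect]
    refine sum_congr rfl fun k hk => ?_
    have hk' := mem_range.1 hk
    have e1 : ((q - 1 - k + 1 : ℕ) : ℤ) = p - (k + 1 : ℕ) := by push_cast; omega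
    rw [e1, leg_sub h4]
  simp only [sub_mul] at h2
  rw [sum_sub_distrib, ← mul_sum, h1] at h2
  linarith

lemma sum_QR_one (h4 : p % 4 = 1) : (∑ r ∈ QR p, r) = p * ((p - 1) / 4) := by
  have h := two_sum (p := p)
  have hp2 : p ≠ 2 := by omega
  rw [sum_range_half hp2, leg_moment_one h4, add_zero] at h
  have h1 : (p - 1) / 2 = 2 * ((p - 1) / 4) := by omega
  rw [h1] at h
  push_cast at h
  have h2 : ((∑ r ∈ QR p, r : ℕ) : ℤ) = ((p * ((p - 1) / 4) : ℕ) : ℤ) := by
    push_cast
    linarith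
  exact_mod_cast h2

lemma sum_QR_three (h4 : p % 4 = 3) (h5 : 5 ≤ p) {K : Type*} [Field K] [NumberField K]
    (hK : finrank ℚ K = 2) (y : K) (hy : y ^ 2 = -(p : K)) :
    2 * ((∑ r ∈ QR p, r : ℕ) : ℤ) = p * (((p - 1) / 2 : ℕ) - classNumber K) := by
  have h := two_sum (p := p)
  have hp2 : p ≠ 2 := by omega
  rw [sum_range_half hp2] at h
  have h1 := h_three h4 h5 hK y hy
  linarith

variable (p) in
/-- the number of quadratic residues below `p/12` -/
def Np : ℕ := ((Icc 1 p).filter (fun k => 12 * k < p ∧ legendreSym p k = 1)).card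

lemma card_low : ((QR p).filter (fun r => 12 * r < p)).card = Np p := by
  unfold Np
  congr 1
  ext r
  rw [mem_filter, mem_filter, mem_QR, mem_Icc]
  constructor
  · rintro ⟨⟨h1, h2⟩, h3⟩
    have := pos_of_mem_QR (mem_QR.2 ⟨h1, h2⟩)
    exact ⟨⟨this, h1.le⟩, h3, h2⟩
  · rintro ⟨⟨h1, h2⟩, h3, h4⟩
    exact ⟨⟨by omega, h4⟩, h3⟩

lemma count_plus (hp3 : 3 < p) :
    ((QR p).filter (fun r : ℕ => Real.sin ((Real.pi / 6 - 2 * Real.pi * r / p) / 2) < 0)).card +
      Np p = (p - 1) / 2 ∧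
      ∀ r ∈ QR p, Real.sin ((Real.pi / 6 - 2 * Real.pi * r / p) / 2) ≠ 0 := by
  have hp := hpf.out
  have hpR : (0 : ℝ) < p := by exact_mod_cast hp.pos
  have hpi := Real.pi_pos
  have key : ∀ r ∈ QR p, (12 * r < p → 0 < Real.sin ((Real.pi / 6 - 2 * Real.pi * r / p) / 2)) ∧
      (¬ 12 * r < p → Real.sin ((Real.pi / 6 - 2 * Real.pi * r / p) / 2) < 0) := by
    intro r hr
    have hr0 := pos_of_mem_QR hr
    have hr' := mem_QR.1 hr
    have hrR : (0 : ℝ) < r := by exact_mod_cast hr0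
    have hrp : (r : ℝ) / p < 1 := by
      rw [div_lt_one hpR]; exact_mod_cast hr'.1
    have hrp0 : 0 < (r : ℝ) / p := by positivity
    have e : (Real.pi / 6 - 2 * Real.pi * r / p) / 2 = Real.pi * (1 / 12 - (r : ℝ) / p) := by ring
    rw [e]
    constructor
    · intro h
      have h1 : (r : ℝ) / p < 1 / 12 := by
        rw [div_lt_div_iff₀ hpR (by norm_num)]
        have : ((12 * r : ℕ) : ℝ) < p := by exact_mod_cast h
        push_cast at this
        linarith
      apply Real.sin_pos_of_pos_of_lt_pi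
      · apply mul_pos hpi; linarith
      · nlinarith
    · intro h
      have h12 : p < 12 * r := by
        rcases Nat.lt_trichotomy (12 * r) p with h0 | h0 | h0
        · exact absurd h0 h
        · exfalso
          have h2 : 2 ∣ p := by omega
          have := (Nat.prime_dvd_prime_iff_eq Nat.prime_two hp).1 h2
          omega
        · exact h0
      have h1 : 1 / 12 < (r : ℝ) / p := by
        rw [div_lt_div_iff₀ (by norm_num) hpR]
        have : (p : ℝ) < ((12 * r : ℕ) : ℝ) := by exact_mod_cast h12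
        push_cast at this
        linarith
      apply Real.sin_neg_of_neg_of_neg_pi_lt
      · apply mul_neg_of_pos_of_neg hpi; linarith
      · nlinarith
  refine ⟨?_, ?_⟩
  · have h1 : (QR p).filter (fun r : ℕ => Real.sin ((Real.pi / 6 - 2 * Real.pi * r / p) / 2) < 0) =
        (QR p).filter (fun r => ¬ 12 * r < p) := by
      apply filter_congr
      intro r hr
      constructor
      · intro h h'
        exact absurd ((key r hr).1 h') (not_lt.2 h.le)
      · exact (key r hr).2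
    rw [h1, ← card_low, ← card_QR (p := p) (by omega), add_comm]
    exact card_filter_add_card_filter_not _
  · intro r hr h0
    by_cases h : 12 * r < p
    · exact absurd h0 ((key r hr).1 h).ne'
    · exact absurd h0 ((key r hr).2 h).ne

lemma card_high : ((QR p).filter (fun r => ¬ 12 * r < 11 * p)).card =
    ((Icc 1 p).filter (fun k => 12 * k ≤ p ∧ legendreSym p (p - k) = 1)).card := by
  refine card_bij (fun r _ => p - r) ?_ ?_ ?_
  · intro r hr
    rw [mem_filter] at hr
    have h1 := mem_QR.1 hr.1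
    have h2 := pos_of_mem_QR hr.1
    rw [mem_filter, mem_Icc]
    refine ⟨⟨by omega, by omega⟩, by omega, ?_⟩
    have : ((p : ℤ) - (p - r : ℕ)) = r := by omega
    rw [this]
    exact h1.2
  · intro a ha b hb hab
    rw [mem_filter] at ha hb
    have h1 := mem_QR.1 ha.1
    have h2 := mem_QR.1 hb.1
    have hab' : p - a = p - b := hab
    omega
  · intro k hk
    rw [mem_filter, mem_Icc] at hk
    refine ⟨p - k, ?_, by omega⟩
    rw [mem_filter, mem_QR]
    refine ⟨⟨by omega, ?_⟩, by omega⟩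
    have : (((p - k : ℕ) : ℤ)) = p - k := by omega
    rw [this]
    exact hk.2.2

lemma no_twelve (k : ℕ) : 12 * k ≠ p := by
  intro h0
  have h2 : 2 ∣ p := by omega
  have := (Nat.prime_dvd_prime_iff_eq Nat.prime_two hpf.out).1 h2
  omega

lemma card_high_one (h4 : p % 4 = 1) :
    ((QR p).filter (fun r => ¬ 12 * r < 11 * p)).card = Np p := by
  rw [card_high]
  unfold Np
  congr 1
  apply filter_congr
  intro k _
  rw [leg_sub h4]
  have := no_twelve (p := p) k
  constructor
  · rintro ⟨h1, h2⟩; exact ⟨by omega, h2⟩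
  · rintro ⟨h1, h2⟩; exact ⟨by omega, h2⟩

lemma leg_sub_three (h4 : p % 4 = 3) (a : ℤ) : legendreSym p (p - a) = -legendreSym p a := by
  have hneg : legendreSym p (-a) = -legendreSym p a := by
    rw [← neg_one_mul, legendreSym.mul, legendreSym.at_neg_one (by omega),
      ZMod.χ₄_nat_three_mod_four h4]
    ring
  rw [sub_eq_add_neg, legendreSym.mod, Int.add_emod_left, ← legendreSym.mod, hneg]

lemma card_high_three (h4 : p % 4 = 3) :
    ((QR p).filter (fun r => ¬ 12 * r < 11 * p)).card + Np p = p / 12 := by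
  rw [card_high]
  unfold Np
  rw [← card_union_of_disjoint]
  · have : (filter (fun k : ℕ => 12 * k ≤ p ∧ legendreSym p (p - k) = 1) (Icc 1 p) ∪
        filter (fun k : ℕ => 12 * k < p ∧ legendreSym p k = 1) (Icc 1 p)) = Icc 1 (p / 12) := by
      ext k
      rw [mem_union, mem_filter, mem_filter, mem_Icc, mem_Icc, leg_sub_three h4]
      have := no_twelve (p := p) k
      constructor
      · rintro (⟨h1, h2, h3⟩ | ⟨h1, h2, h3⟩)
        · omega
        · omega
      · rintro ⟨h1, h2⟩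
        rcases leg_pm (p := p) (k : ℤ) (by omega) (by omega) with h | h
        · right; exact ⟨⟨h1, by omega⟩, by omega, h⟩
        · left; exact ⟨⟨h1, by omega⟩, by omega, by rw [h]; norm_num⟩
    rw [this, Nat.card_Icc]
    omega
  · rw [disjoint_left]
    intro k h1 h2
    rw [mem_filter] at h1 h2
    rw [leg_sub_three h4] at h1
    omega

lemma count_minus (hp3 : 3 < p) :
    ((QR p).filter (fun r : ℕ => Real.sin ((-(Real.pi / 6) - 2 * Real.pi * r / p) / 2) < 0)).card +
      ((QR p).filter (fun r => ¬ 12 * r < 11 * p)).card = (p - 1) / 2 ∧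
      ∀ r ∈ QR p, Real.sin ((-(Real.pi / 6) - 2 * Real.pi * r / p) / 2) ≠ 0 := by
  have hp := hpf.out
  have hpR : (0 : ℝ) < p := by exact_mod_cast hp.pos
  have hpi := Real.pi_pos
  have key : ∀ r ∈ QR p, (12 * r < 11 * p →
      Real.sin ((-(Real.pi / 6) - 2 * Real.pi * r / p) / 2) < 0) ∧
      (¬ 12 * r < 11 * p → 0 < Real.sin ((-(Real.pi / 6) - 2 * Real.pi * r / p) / 2)) := by
    intro r hr
    have hr0 := pos_of_mem_QR hr
    have hr' := mem_QR.1 hr
    have hrR : (0 : ℝ) < r := by exact_mod_cast hr0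
    have hrp : (r : ℝ) / p < 1 := by
      rw [div_lt_one hpR]; exact_mod_cast hr'.1
    have hrp0 : 0 < (r : ℝ) / p := by positivity
    have e : (-(Real.pi / 6) - 2 * Real.pi * r / p) / 2 = -(Real.pi * (1 / 12 + (r : ℝ) / p)) := by
      ring
    rw [e, Real.sin_neg]
    constructor
    · intro h
      have h1 : (r : ℝ) / p < 11 / 12 := by
        rw [div_lt_div_iff₀ hpR (by norm_num)]
        have : ((12 * r : ℕ) : ℝ) < (11 * p : ℕ) := by exact_mod_cast h
        push_cast at this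
        linarith
      rw [neg_lt_zero]
      apply Real.sin_pos_of_pos_of_lt_pi
      · apply mul_pos hpi; linarith
      · nlinarith
    · intro h
      have h12 : 11 * p < 12 * r := by
        have := no_twelve (p := p) (p - r)
        omega
      have h1 : 11 / 12 < (r : ℝ) / p := by
        rw [div_lt_div_iff₀ (by norm_num) hpR]
        have : ((11 * p : ℕ) : ℝ) < ((12 * r : ℕ) : ℝ) := by exact_mod_cast h12
        push_cast at this
        linarith
      have e2 : Real.pi * (1 / 12 + (r : ℝ) / p) =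
          Real.pi * ((r : ℝ) / p - 11 / 12) + Real.pi := by ring
      rw [e2, Real.sin_add_pi, neg_neg]
      apply Real.sin_pos_of_pos_of_lt_pi
      · apply mul_pos hpi; linarith
      · nlinarith
  refine ⟨?_, ?_⟩
  · have h1 : (QR p).filter (fun r : ℕ =>
        Real.sin ((-(Real.pi / 6) - 2 * Real.pi * r / p) / 2) < 0) =
        (QR p).filter (fun r => 12 * r < 11 * p) := by
      apply filter_congr
      intro r hr
      constructor
      · intro h
        by_contra h'
        exact absurd ((key r hr).2 h') (not_lt.2 h.le)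
      · exact (key r hr).1
    rw [h1, ← card_QR (p := p) (by omega)]
    exact card_filter_add_card_filter_not _
  · intro r hr h0
    by_cases h : 12 * r < 11 * p
    · exact absurd h0 ((key r hr).1 h).ne
    · exact absurd h0 ((key r hr).2 h).ne'

variable (p) in
/-- the polynomial `∏_{k ≤ (p-1)/2} (x - e^{2π i k²/p})` -/
noncomputable def Sp (x : ℂ) : ℂ :=
  ∏ k ∈ Icc 1 ((p - 1) / 2), (x - Complex.exp (2 * Real.pi * Complex.I * (k : ℂ) ^ 2 / p))

lemma neg_one_pow_congr {a b : ℕ} (h : a % 2 = b % 2) : ((-1 : ℂ)) ^ a = (-1) ^ b := by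
  rw [neg_one_pow_eq_pow_mod_two, h, ← neg_one_pow_eq_pow_mod_two]

lemma exp_split {t : ℕ} (ht : (∑ r ∈ QR p, r) = p * t) (z : ℂ) :
    Complex.exp ((z + Real.pi * ((∑ r ∈ QR p, r : ℕ) : ℂ) / p) * Complex.I) =
      (-1) ^ t * Complex.exp (z * Complex.I) := by
  have hp0 : (p : ℂ) ≠ 0 := by exact_mod_cast hpf.out.ne_zero
  rw [ht]
  have e : (z + Real.pi * ((p * t : ℕ) : ℂ) / p) * Complex.I =
      (t : ℂ) * (Real.pi * Complex.I) + z * Complex.I := by
    push_cast
    field_simp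
    ring
  rw [e, Complex.exp_add, Complex.exp_nat_mul, Complex.exp_pi_mul_I]

lemma fin_plus (hp3 : 3 < p) {t : ℕ} (ht : (∑ r ∈ QR p, r) = p * t) :
    ∃ P : ℝ, 0 < P ∧ Sp p (Complex.exp (2 * Real.pi * Complex.I / 12)) =
      (-1) ^ ((p - 1) / 2 + Np p + t) * P *
        Complex.exp (((((p - 1) / 2 : ℕ) : ℂ) * (7 * Real.pi / 12)) * Complex.I) := by
  obtain ⟨h1, h2⟩ := count_plus (p := p) hp3
  obtain ⟨P, hP, hv⟩ := S_value (p := p) (by omega) (Real.pi / 6) h2
  refine ⟨P, hP, ?_⟩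
  rw [exp_split ht] at hv
  unfold Sp
  have e1 : Complex.exp (2 * Real.pi * Complex.I / 12) =
      Complex.exp (((Real.pi / 6 : ℝ) : ℂ) * Complex.I) := by
    congr 1
    push_cast
    ring
  rw [e1, hv, neg_one_pow_congr (a := _ + _) (b := (#(filter (fun r : ℕ =>
    Real.sin ((Real.pi / 6 - 2 * Real.pi * r / p) / 2) < 0) (QR p))) + t) (by omega), pow_add]
  have e2 : (Real.pi / 2 + ((Real.pi / 6 : ℝ) : ℂ) / 2) = 7 * Real.pi / 12 := by
    push_cast
    ring
  rw [e2]
  ring

lemma fin_minus (hp3 : 3 < p) {t : ℕ} (ht : (∑ r ∈ QR p, r) = p * t) :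
    ∃ P : ℝ, 0 < P ∧ Sp p (Complex.exp (-(2 * Real.pi * Complex.I / 12))) =
      (-1) ^ ((p - 1) / 2 + ((QR p).filter (fun r => ¬ 12 * r < 11 * p)).card + t) * P *
        Complex.exp (((((p - 1) / 2 : ℕ) : ℂ) * (5 * Real.pi / 12)) * Complex.I) := by
  obtain ⟨h1, h2⟩ := count_minus (p := p) hp3
  obtain ⟨P, hP, hv⟩ := S_value (p := p) (by omega) (-(Real.pi / 6)) h2
  refine ⟨P, hP, ?_⟩
  rw [exp_split ht] at hv
  unfold Sp
  have e1 : Complex.exp (-(2 * Real.pi * Complex.I / 12)) =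
      Complex.exp (((-(Real.pi / 6) : ℝ) : ℂ) * Complex.I) := by
    congr 1
    push_cast
    ring
  rw [e1, hv, neg_one_pow_congr (a := _ + _) (b := (#(filter (fun r : ℕ =>
    Real.sin ((-(Real.pi / 6) - 2 * Real.pi * r / p) / 2) < 0) (QR p))) + t) (by omega), pow_add]
  have e2 : (Real.pi / 2 + ((-(Real.pi / 6) : ℝ) : ℂ) / 2) = 5 * Real.pi / 12 := by
    push_cast
    ring
  rw [e2]
  ring

/-- the sum of the quadratic residues and the class number -/
lemma sum_QR (hp3 : 3 < p) {K : Type*} [Field K] [NumberField K]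
    (hK : finrank ℚ K = 2) (y : K) (hy : y ^ 2 = -(p : K)) :
    ∃ t : ℕ, (∑ r ∈ QR p, r) = p * t ∧
      ((p % 4 = 1 ∧ 4 * t = p - 1 ∧ classNumber K % 4 = (p - 1) / 2 % 4) ∨
       (p % 4 = 3 ∧ 2 * t + classNumber K = (p - 1) / 2)) := by
  have hp := hpf.out
  have hodd : p % 2 = 1 := by
    rcases hp.eq_two_or_odd with h | h
    · omega
    · exact h
  rcases (by omega : p % 4 = 1 ∨ p % 4 = 3) with h4 | h4
  · exact ⟨(p - 1) / 4, sum_QR_one h4, Or.inl ⟨h4, by omega, h_one_mod h4 hK y hy⟩⟩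
  · have h5 : 5 ≤ p := by
      have : p ≠ 4 := by omega
      omega
    have h := sum_QR_three h4 h5 hK y hy
    set R := ∑ r ∈ QR p, r with hR
    set h' := classNumber K with hh
    have hdv : (p : ℤ) ∣ 2 * (R : ℤ) := ⟨_, h⟩
    have hcop : IsCoprime (p : ℤ) 2 := by
      rw [Int.isCoprime_iff_gcd_eq_one]
      have : Nat.Coprime p 2 := by
        rw [Nat.coprime_primes hp Nat.prime_two]; omega
      exact_mod_cast this
    obtain ⟨t, ht⟩ := hcop.dvd_of_dvd_mul_left hdv
    have hp0 : (p : ℤ) ≠ 0 := by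
      have := hp.pos
      omega
    have ht0 : 0 ≤ t := by
      by_contra hneg
      have h1 : (0 : ℤ) ≤ R := by positivity
      have h2 : (0 : ℤ) < p := by have := hp.pos; omega
      nlinarith
    have h3 : 2 * t = (((p - 1) / 2 : ℕ) : ℤ) - h' := by
      apply mul_left_cancel₀ hp0
      rw [← h, ht]
      ring
    refine ⟨t.toNat, ?_, Or.inr ⟨h4, by omega⟩⟩
    have h6 : ((R : ℕ) : ℤ) = ((p * t.toNat : ℕ) : ℤ) := by
      push_cast
      rw [Int.toNat_of_nonneg ht0, ht]
    exact_mod_cast h6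

end trig

end Pool.Agent.Q267.CN
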